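import Pool.Agent.H52.HD.Lim

/-!
# Height dichotomy: classes of choice functions, products of ultrafilters, rank one
-/

set_option autoImplicit false

namespace Pool.Agent.H52.HD

open Pool.Agent.H494R3.GT Pool.Agent.N557.QW Pool.Agent.N414.LR
open Pool.Agent.N169.QWP (mul_coeff LG_coeff star_ap commute)
open Pool.Agent.N414.LR.CLS (star_v v_mul v_one inner_v norm_v inner_rgt orth)
open Pool.Agent.N414.LR.SQ (cf_eq norm_dl t_sq rgt_mul rgt_one)
open Pool.Agent.N414.LR.END (cf_comm mul_mem' star_mem')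
open Filter Topology

noncomputable section

variable {Γ Λ : Type} [Group Γ] [Group Λ]

/-- choice functions up to left translation -/
def st (Λ : Type) [Group Λ] {Γ : Type} (p : Ultrafilter Γ) : Setoid (Γ → Λ) where
  r s s' := ∃ x : Λ, ∀ᶠ g in p, s' g = x * s g
  iseqv := by
    refine ⟨fun s => ⟨1, Eventually.of_forall fun g => (one_mul _).symm⟩, ?_, ?_⟩
    · rintro s s' ⟨x, h⟩
      refine ⟨x⁻¹, ?_⟩
      filter_upwards [h] with g hg
      rw [hg]
      group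
    · rintro s s' s'' ⟨x, h⟩ ⟨y, h'⟩
      refine ⟨y * x, ?_⟩
      filter_upwards [h, h'] with g hg hg'
      rw [hg', hg]
      group

omit [Group Γ] in
theorem st_iff {p : Ultrafilter Γ} {s s' : Γ → Λ} :
    (st Λ p).r s s' ↔ ∃ x : Λ, ∀ᶠ g in p, s' g = x * s g := Iff.rfl

theorem TT_class (v : Γ →* unitary (Op Λ)) (hv : ∀ g, (v g : Op Λ) ∈ LG Λ) (p : Ultrafilter Γ)
    {s s' : Γ → Λ} {x : Λ} (h : ∀ᶠ g in p, s' g = x * s g) (ξ : L2 Λ) :
    TT v p s' ξ = rgt x⁻¹ (TT v p s ξ) := by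
  rw [rgt_TT v hv, inv_inv]
  exact TT_congr v p h ξ

/-- the mass of a class -/
def NN (v : Γ →* unitary (Op Λ)) (hv : ∀ g, (v g : Op Λ) ∈ LG Λ) (p : Ultrafilter Γ) :
    Quotient (st Λ p) → ℝ :=
  Quotient.lift (fun s => ‖TT v p s (dl 1)‖ ^ 2) (by
    rintro s s' ⟨x, h⟩
    show ‖TT v p s (dl 1)‖ ^ 2 = ‖TT v p s' (dl 1)‖ ^ 2
    rw [TT_class v hv p h, norm_rgt])

theorem NN_mk (v : Γ →* unitary (Op Λ)) (hv : ∀ g, (v g : Op Λ) ∈ LG Λ) (p : Ultrafilter Γ)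
    (s : Γ → Λ) : NN v hv p (Quotient.mk (st Λ p) s) = ‖TT v p s (dl 1)‖ ^ 2 := rfl

theorem NN_nonneg (v : Γ →* unitary (Op Λ)) (hv : ∀ g, (v g : Op Λ) ∈ LG Λ) (p : Ultrafilter Γ)
    (c : Quotient (st Λ p)) : 0 ≤ NN v hv p c := by
  induction c using Quotient.inductionOn with
  | h s =>
    rw [NN_mk]
    positivity

theorem sum_NN (v : Γ →* unitary (Op Λ)) (hv : ∀ g, (v g : Op Λ) ∈ LG Λ) (p : Ultrafilter Γ)
    (J : Finset (Quotient (st Λ p))) : ∑ c ∈ J, NN v hv p c ≤ 1 := by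
  have h1 : ∀ c ∈ J, NN v hv p c = ‖TT v p (Quotient.out c) (dl 1)‖ ^ 2 := by
    intro c _
    conv_lhs => rw [← Quotient.out_eq c]
    rfl
  rw [Finset.sum_congr rfl h1]
  refine bessel v hv p J (fun c => Quotient.out c) fun i _ j _ hij x => ?_
  rw [← not_not (a := ∀ᶠ g in p, (Quotient.out j) g ≠ x * (Quotient.out i) g)]
  intro h2
  rw [Ultrafilter.eventually_not (f := p)] at h2
  rw [not_not] at h2
  apply hij
  rw [← Quotient.out_eq i, ← Quotient.out_eq j]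
  exact Quotient.sound ⟨x, h2⟩

theorem summable_NN (v : Γ →* unitary (Op Λ)) (hv : ∀ g, (v g : Op Λ) ∈ LG Λ)
    (p : Ultrafilter Γ) : Summable (NN v hv p) :=
  summable_of_sum_le (NN_nonneg v hv p) (sum_NN v hv p)

theorem finite_NN (v : Γ →* unitary (Op Λ)) (hv : ∀ g, (v g : Op Λ) ∈ LG Λ)
    (p : Ultrafilter Γ) {r : ℝ} (hr : 0 < r) : {c | r ≤ NN v hv p c}.Finite := by
  have h := (summable_NN v hv p).tendsto_cofinite_zero
  have h1 := h.eventually_lt_const hr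
  rw [Filter.eventually_cofinite] at h1
  refine h1.subset ?_
  intro c hc
  rw [Set.mem_ofPred_eq, not_lt]
  exact hc

/-- a supremum of masses is attained -/
theorem attained (v : Γ →* unitary (Op Λ)) (hv : ∀ g, (v g : Op Λ) ∈ LG Λ)
    (p : Ultrafilter Γ) {t : ℝ} (ht : 0 < t)
    (h : ∀ r, r < t → ∃ s : Γ → Λ, r ≤ ‖TT v p s (dl 1)‖ ^ 2) :
    ∃ s : Γ → Λ, t ≤ ‖TT v p s (dl 1)‖ ^ 2 := by
  by_contra hcon
  push Not at hcon
  have hfin := finite_NN v hv p (half_pos ht)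
  obtain ⟨s₀, hs₀⟩ := h (t / 2) (by linarith)
  obtain ⟨c, hc, hmax⟩ := hfin.exists_maximalFor (NN v hv p) _ ⟨Quotient.mk _ s₀, hs₀⟩
  obtain ⟨s₁, rfl⟩ := Quotient.exists_rep c
  have h1 := hcon s₁
  obtain ⟨r, hr1, hr2⟩ := exists_between h1
  obtain ⟨s₂, hs₂⟩ := h r hr2
  have hc' : t / 2 ≤ ‖TT v p s₁ (dl 1)‖ ^ 2 := hc
  have h3 : Quotient.mk (st Λ p) s₂ ∈ {c | t / 2 ≤ NN v hv p c} := by
    show t / 2 ≤ ‖TT v p s₂ (dl 1)‖ ^ 2
    linarith
  have h4 := hmax h3 (by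
    show ‖TT v p s₁ (dl 1)‖ ^ 2 ≤ ‖TT v p s₂ (dl 1)‖ ^ 2
    linarith)
  have h5 : ‖TT v p s₂ (dl 1)‖ ^ 2 ≤ ‖TT v p s₁ (dl 1)‖ ^ 2 := h4
  linarith

/-- the product of two ultrafilters -/
def pr (q p : Ultrafilter Γ) : Ultrafilter Γ := q.bind fun g' => p.map fun g => g' * g

theorem eventually_pr {q p : Ultrafilter Γ} {P : Γ → Prop} :
    (∀ᶠ m in pr q p, P m) ↔ ∀ᶠ g' in q, ∀ᶠ g in p, P (g' * g) := Iff.rfl

theorem gen_pr (v : Γ →* unitary (Op Λ)) (hv : ∀ g, (v g : Op Λ) ∈ LG Λ) (q p : Ultrafilter Γ)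
    (hp : Gen (fun g => (v g : Op Λ)) p) : Gen (fun g => (v g : Op Λ)) (pr q p) := by
  intro a b ha ε hε
  rw [eventually_pr]
  exact Eventually.of_forall fun g' => gen_mul v hv p hp g' a b ha ε hε

/-- **The product formula.** -/
theorem TT_pr (v : Γ →* unitary (Op Λ)) (q p : Ultrafilter Γ) (s : Γ → Λ) (ζ ξ : L2 Λ) :
    Tendsto (fun g' => inner ℂ ζ ((v g' : Op Λ) (TT v p (fun g => s (g' * g)) ξ))) q
      (𝓝 (inner ℂ ζ (TT v (pr q p) s ξ))) := by
  rw [Metric.tendsto_nhds]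
  intro ε hε
  have h1 := (Metric.tendsto_nhds.1 (TT_tendsto v (pr q p) s ζ ξ)) (ε / 2) (half_pos hε)
  rw [eventually_pr] at h1
  filter_upwards [h1] with g' hg'
  have h2 : Tendsto (fun g => inner ℂ ζ ((v (g' * g) : Op Λ) (rgt (s (g' * g))⁻¹ ξ))) p
      (𝓝 (inner ℂ ζ ((v g' : Op Λ) (TT v p (fun g => s (g' * g)) ξ)))) := by
    rw [inner_v]
    refine (TT_tendsto v p (fun g => s (g' * g)) ((v g'⁻¹ : Op Λ) ζ) ξ).congr fun g => ?_
    rw [← inner_v, ← v_mul]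
  have h3 : dist (inner ℂ ζ ((v g' : Op Λ) (TT v p (fun g => s (g' * g)) ξ)))
      (inner ℂ ζ (TT v (pr q p) s ξ)) ≤ ε / 2 := by
    refine le_of_tendsto (h2.dist tendsto_const_nhds) ?_
    filter_upwards [hg'] with g hg
    exact hg.le
  linarith

/-- (F5): a contraction in the limit set which attains its norm -/
theorem attain (v : Γ →* unitary (Op Λ)) (hv : ∀ g, (v g : Op Λ) ∈ LG Λ) (q p : Ultrafilter Γ)
    {t : ℝ} (ht : 0 < t) (hp : ∀ s : Γ → Λ, ‖TT v p s (dl 1)‖ ^ 2 ≤ t)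
    (hqp : ∃ s : Γ → Λ, t ≤ ‖TT v (pr q p) s (dl 1)‖ ^ 2) :
    ∃ x h : Γ → Λ, ‖TT v p h (dl 1)‖ ^ 2 = t ∧
      ‖TT v q x (TT v p h (dl 1))‖ = ‖TT v p h (dl 1)‖ := by
  classical
  obtain ⟨s, hs⟩ := hqp
  set Ω := TT v (pr q p) s (dl 1) with hΩ
  set cl : Γ → Quotient (st Λ p) := fun g' => Quotient.mk _ (fun g => s (g' * g)) with hcl
  have hfin := finite_NN v hv p (show (0 : ℝ) < t / 4 by positivity)
  by_cases hA : ∀ᶠ g' in q, NN v hv p (cl g') < t / 4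
  · exfalso
    have h1 : ‖inner ℂ Ω Ω‖ ≤ ‖Ω‖ * (√t / 2) := by
      refine le_of_tendsto (TT_pr v q p s Ω (dl 1)).norm ?_
      filter_upwards [hA] with g' hg'
      refine (norm_inner_le_norm _ _).trans ?_
      rw [norm_v]
      have h2 : ‖TT v p (fun g => s (g' * g)) (dl 1)‖ ^ 2 < t / 4 := hg'
      have h3 : ‖TT v p (fun g => s (g' * g)) (dl 1)‖ ≤ √t / 2 := by
        have h4 : ‖TT v p (fun g => s (g' * g)) (dl 1)‖ ^ 2 ≤ (√t / 2) ^ 2 := by
          rw [div_pow, Real.sq_sqrt ht.le]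
          linarith
        exact (sq_le_sq₀ (norm_nonneg _) (by positivity)).1 h4
      gcongr
    rw [inner_self_eq_norm_sq_to_K, norm_pow] at h1
    change ‖((‖Ω‖ : ℝ) : ℂ)‖ ^ 2 ≤ _ at h1
    rw [Complex.norm_real, norm_norm] at h1
    have h5 : √t ≤ ‖Ω‖ := by
      rw [Real.sqrt_le_left (norm_nonneg _)]
      exact hs
    have h6 : 0 < √t := Real.sqrt_pos.2 ht
    nlinarith
  · rw [← Ultrafilter.eventually_not] at hA
    obtain ⟨c, hc⟩ : ∃ c, ∀ᶠ g' in q, cl g' = c := by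
      have h7 : (⋃ c ∈ {c | t / 4 ≤ NN v hv p c}, {g' | cl g' = c}) ∈ q := by
        filter_upwards [hA] with g' hg'
        exact Set.mem_biUnion (show cl g' ∈ {c | t / 4 ≤ NN v hv p c} from not_lt.1 hg') rfl
      rw [Ultrafilter.finite_biUnion_mem_iff hfin] at h7
      obtain ⟨c, _, he⟩ := h7
      exact ⟨c, he⟩
    obtain ⟨h, rfl⟩ := Quotient.exists_rep c
    have h8 : ∀ g', ∃ x : Λ, cl g' = Quotient.mk _ h → ∀ᶠ g in p, s (g' * g) = x * h g := by
      intro g'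
      by_cases he : cl g' = Quotient.mk _ h
      · have h9 := Quotient.exact he
        obtain ⟨x, hx⟩ := (st Λ p).symm h9
        exact ⟨x, fun _ => hx⟩
      · exact ⟨1, fun h' => absurd h' he⟩
    choose x hx using h8
    refine ⟨x, h, ?_⟩
    set η := TT v p h (dl 1) with hη
    have hT : TT v q x η = Ω := by
      refine TT_unique v q x _ _ fun ζ => ?_
      refine (TT_pr v q p s ζ (dl 1)).congr' ?_
      filter_upwards [hc] with g' hg'
      rw [TT_class v hv p (hx g' hg')]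
    have h10 := hp h
    have h11 := TT_le v q x η
    rw [hT] at h11 ⊢
    have h12 : ‖Ω‖ ^ 2 ≤ ‖η‖ ^ 2 := by gcongr
    rw [← hη] at h10
    have h13 : ‖η‖ ^ 2 = t := le_antisymm h10 (hs.trans h12)
    refine ⟨h13, ?_⟩
    have h14 : ‖Ω‖ ^ 2 = ‖η‖ ^ 2 := le_antisymm h12 (by rw [h13]; exact hs)
    exact (sq_eq_sq₀ (norm_nonneg _) (norm_nonneg _)).1 h14

/-- the columns of a nonzero limit operator along a generic ultrafilter lie in different classes -/
theorem cols_ne (v : Γ →* unitary (Op Λ)) (hv : ∀ g, (v g : Op Λ) ∈ LG Λ) (p : Ultrafilter Γ)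
    (hp : Gen (fun g => (v g : Op Λ)) p) (s : Γ → Λ) (hs : ∃ ξ, TT v p s ξ ≠ 0) {y y' : Λ}
    (hy : y ≠ y') (x : Λ) : ∀ᶠ g in p, s g * y'⁻¹ ≠ x * (s g * y⁻¹) := by
  rw [← not_not (a := ∀ᶠ g in p, s g * y'⁻¹ ≠ x * (s g * y⁻¹))]
  intro h2
  rw [Ultrafilter.eventually_not (f := p)] at h2
  rw [not_not] at h2
  obtain ⟨ξ, hξ⟩ := hs
  apply hξ
  refine TT_zero v hv p hp s (y'⁻¹ * y) x ?_ ?_ ξ
  · intro h
    exact hy (inv_mul_eq_one.1 h).symm
  · filter_upwards [h2] with g hg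
    rw [← mul_assoc, hg]
    group

theorem hs_le (v : Γ →* unitary (Op Λ)) (hv : ∀ g, (v g : Op Λ) ∈ LG Λ) (p : Ultrafilter Γ)
    (hp : Gen (fun g => (v g : Op Λ)) p) (s : Γ → Λ) (F : Finset Λ) :
    ∑ y ∈ F, ‖TT v p s (dl y)‖ ^ 2 ≤ 1 := by
  by_cases h : ∃ ξ, TT v p s ξ ≠ 0
  · simp only [TT_dl v p s]
    exact bessel v hv p F (fun y g => s g * y⁻¹) fun i _ j _ hij x =>
      cols_ne v hv p hp s h hij x
  · push Not at h
    simp only [h, norm_zero]
    norm_num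

/-- two limit operators: one of them has Hilbert-Schmidt norm one, the other one is a translate
of it or zero -/
theorem double_coset (v : Γ →* unitary (Op Λ)) (hv : ∀ g, (v g : Op Λ) ∈ LG Λ)
    (p : Ultrafilter Γ) (hp : Gen (fun g => (v g : Op Λ)) p) (s : Γ → Λ)
    (hs : HasSum (fun y => ‖TT v p s (dl y)‖ ^ 2) 1) (s' : Γ → Λ)
    (hs' : TT v p s' (dl 1) ≠ 0) : ∃ a b : Λ, ∀ᶠ g in p, s' g = a * s g * b := by
  classical
  by_contra hcon
  push Not at hcon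
  have hne : ∃ ξ, TT v p s ξ ≠ 0 := by
    by_contra h
    push Not at h
    simp only [h, norm_zero, ne_eq, OfNat.ofNat_ne_zero, not_false_eq_true, zero_pow] at hs
    have := hs.unique hasSum_zero
    exact one_ne_zero this
  have key : ∀ F : Finset Λ, ∑ y ∈ F, ‖TT v p s (dl y)‖ ^ 2 ≤ 1 - ‖TT v p s' (dl 1)‖ ^ 2 := by
    intro F
    have h1 := bessel v hv p (Finset.insertNone F) (fun o : Option Λ => match o with
      | none => s'
      | some y => fun g => s g * y⁻¹) ?_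
    · rw [Finset.sum_insertNone] at h1
      simp only [← TT_dl v p s] at h1
      linarith
    · rintro (_ | y) hi (_ | y') hj hij x
      · exact absurd rfl hij
      · show ∀ᶠ g in p, s g * y'⁻¹ ≠ x * s' g
        filter_upwards [hcon x⁻¹ y'⁻¹] with g hg h
        apply hg
        rw [mul_assoc, h]
        group
      · show ∀ᶠ g in p, s' g ≠ x * (s g * y⁻¹)
        filter_upwards [hcon x y⁻¹] with g hg h
        apply hg
        rw [h]
        group
      · exact cols_ne v hv p hp s hne (fun h => hij (by rw [h])) x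
  have h2 : (1 : ℝ) ≤ 1 - ‖TT v p s' (dl 1)‖ ^ 2 := le_of_tendsto hs (Eventually.of_forall key)
  have h3 : 0 < ‖TT v p s' (dl 1)‖ ^ 2 := by
    have := norm_pos_iff.2 hs'
    positivity
  linarith

/-- (F6): rank one -/
theorem rank_one {P : Type} (T : Op P) (hHS : ∀ F : Finset P, ∑ y ∈ F, ‖T (dl y)‖ ^ 2 ≤ 1)
    (w' : L2 P) (hw' : ‖w'‖ = 1) (hT : ‖T w'‖ = 1) :
    (∀ ξ, T ξ = inner ℂ w' ξ • T w') ∧ HasSum (fun y => ‖T (dl y)‖ ^ 2) 1 := by
  classical
  set w := T w' with hw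
  have hsum : Summable fun y => ‖T (dl y)‖ ^ 2 :=
    summable_of_sum_le (fun y => sq_nonneg _) hHS
  have hle : ∑' y, ‖T (dl y)‖ ^ 2 ≤ 1 := hsum.tsum_le_of_sum_le hHS
  -- expansion of `⟨w, T w'⟩`
  have h1 : HasSum (fun y => w' y * inner ℂ w (T (dl y))) 1 := by
    have h2 := ((innerSL ℂ w).comp T).hasSum (hasSum_dl w')
    have h3 : ((innerSL ℂ w).comp T) w' = 1 := by
      show inner ℂ w (T w') = 1
      rw [← hw, inner_self_eq_norm_sq_to_K, hT]
      norm_num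
    rw [h3] at h2
    have h3' : (fun y => w' y * inner ℂ w (T (dl y))) =
        fun y => ((innerSL ℂ w).comp T) (w' y • dl y) := by
      funext y
      rw [map_smul, smul_eq_mul]
      rfl
    rw [h3']
    exact h2
  have h4 : HasSum (fun y => ‖w' y‖ ^ 2) 1 := by
    have := hasSum_sq w'
    rwa [hw', one_pow] at this
  have h5 : HasSum (fun y => ‖T (dl y) - (starRingEnd ℂ) (w' y) • w‖ ^ 2)
      (∑' y, ‖T (dl y)‖ ^ 2 - 2 * 1 + 1) := by
    have h6 := (hsum.hasSum.sub ((Complex.hasSum_re h1).mul_left 2)).add h4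
    have h6' : (fun y => ‖T (dl y) - (starRingEnd ℂ) (w' y) • w‖ ^ 2) =
        fun y => ‖T (dl y)‖ ^ 2 - 2 * (w' y * inner ℂ w (T (dl y))).re + ‖w' y‖ ^ 2 := by
      funext y
      rw [norm_sub_sq (𝕜 := ℂ), inner_smul_right, norm_smul, hT, mul_one, RCLike.norm_conj]
      have h6'' : RCLike.re ((starRingEnd ℂ) (w' y) * inner ℂ (T (dl y)) w) =
          (w' y * inner ℂ w (T (dl y))).re := by
        rw [← inner_conj_symm, ← map_mul]
        exact Complex.conj_re _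
      rw [h6'']
    rw [h6']
    rw [Complex.one_re] at h6
    exact h6
  have h7 : ∑' y, ‖T (dl y)‖ ^ 2 = 1 := by
    have := h5.nonneg (fun y => sq_nonneg _)
    linarith
  have h8 : ∀ y, T (dl y) = (starRingEnd ℂ) (w' y) • w := by
    intro y
    rw [h7] at h5
    norm_num at h5
    have h9 := (hasSum_zero_iff_of_nonneg (fun y => sq_nonneg _)).1 h5
    have h10 := congrFun h9 y
    simp only [Pi.zero_apply, ne_eq, OfNat.ofNat_ne_zero, not_false_eq_true, pow_eq_zero_iff,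
      norm_eq_zero] at h10
    exact sub_eq_zero.1 h10
  refine ⟨fun ξ => ?_, ?_⟩
  · have h11 : T = (innerSL ℂ w').smulRight w := by
      refine op_ext fun y => ?_
      rw [h8, ContinuousLinearMap.smulRight_apply, innerSL_apply_apply, ← inner_conj_symm,
        inner_dl]
    conv_lhs => rw [h11]
    rfl
  · rw [← h7]
    exact hsum.hasSum

end

end Pool.Agent.H52.HD
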