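import Pool.Agent.H52.HD.Inv

/-!
# Height dichotomy: decay along the random walk and generic ultrafilters
-/

set_option autoImplicit false

namespace Pool.Agent.H52.HD

open Pool.Agent.H494R3.GT Pool.Agent.N557.QW Pool.Agent.N414.LR
open Pool.Agent.W661.RC (HasT)
open Pool.Agent.N169.QWP (mul_coeff LG_coeff star_ap commute)
open Pool.Agent.N414.LR.TEN (A B A_coeff B_coeff A_one A_mul A_star B_one B_mul B_star)
open Pool.Agent.N414.LR.CLS (star_v v_mul v_one inner_v norm_v inner_rgt orth)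
open Pool.Agent.N414.LR.SQ (cf_eq norm_dl t_sq rgt_mul rgt_one)
open Pool.Agent.N414.LR.END (cf_comm mul_mem' star_mem')
open Filter Topology

noncomputable section

section markov

variable {Γ : Type} [Group Γ]

/-- the Markov operator of the random walk with step distribution `μ` -/
def Mk (S : Finset Γ) (μ : Γ → ℝ) (f : Γ → ℝ) : Γ → ℝ := fun g => ∑ s ∈ S, μ s * f (g * s)

theorem Mk_iter_ge (S : Finset Γ) (μ : Γ → ℝ) (hpos : ∀ s ∈ S, 0 < μ s)
    (hsum : ∑ s ∈ S, μ s = 1) (f : Γ → ℝ) (c : ℝ) (hf : ∀ g, c ≤ f g) (n : ℕ) :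
    ∀ g, c ≤ (Mk S μ)^[n] f g := by
  induction n generalizing f with
  | zero => exact hf
  | succ n ih =>
    intro g
    rw [Function.iterate_succ_apply]
    refine ih (Mk S μ f) (fun g => ?_) g
    calc c = ∑ s ∈ S, μ s * c := by rw [← Finset.sum_mul, hsum, one_mul]
      _ ≤ Mk S μ f g := by
        refine Finset.sum_le_sum fun s hs => ?_
        have := (hpos s hs).le
        have := hf (g * s)
        gcongr

variable {H : Type} [NormedAddCommGroup H] [InnerProductSpace ℂ H] [CompleteSpace H]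

theorem Mk_iter_eq (S : Finset Γ) (μ : Γ → ℝ) (κ : Γ →* unitary (H →L[ℂ] H)) (ζ ξ : H) (n : ℕ)
    (g : Γ) :
    (Mk S μ)^[n] (fun g => (inner ℂ ζ ((κ g : H →L[ℂ] H) ξ)).re) g =
      (inner ℂ ζ ((κ g : H →L[ℂ] H) (((av S μ κ) ^ n) ξ))).re := by
  induction n generalizing ξ with
  | zero => rfl
  | succ n ih =>
    rw [Function.iterate_succ_apply]
    have h1 : Mk S μ (fun g => (inner ℂ ζ ((κ g : H →L[ℂ] H) ξ)).re) =
        fun g => (inner ℂ ζ ((κ g : H →L[ℂ] H) (av S μ κ ξ))).re := by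
      funext g
      show ∑ s ∈ S, μ s * (inner ℂ ζ ((κ (g * s) : H →L[ℂ] H) ξ)).re = _
      rw [av_apply, map_sum, inner_sum, Complex.re_sum]
      refine Finset.sum_congr rfl fun s _ => ?_
      rw [map_smul, inner_smul_right, Complex.re_ofReal_mul]
      congr 2
      rw [map_mul]
      rfl
    rw [h1, ih, pow_succ]
    rfl

theorem av_pow_le (S : Finset Γ) (μ : Γ → ℝ) (κ : Γ →* unitary (H →L[ℂ] H)) {ρ : ℝ}
    (hρ : 0 ≤ ρ) (h : ∀ ξ : H, ‖av S μ κ ξ‖ ≤ ρ * ‖ξ‖) (n : ℕ) (ξ : H) :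
    ‖((av S μ κ) ^ n) ξ‖ ≤ ρ ^ n * ‖ξ‖ := by
  induction n generalizing ξ with
  | zero =>
    rw [pow_zero, pow_zero, one_mul]
    exact le_refl _
  | succ n ih =>
    rw [pow_succ]
    change ‖((av S μ κ) ^ n) (av S μ κ ξ)‖ ≤ _
    refine (ih _).trans ?_
    rw [pow_succ, mul_assoc]
    have := h ξ
    gcongr

/-- **Decay along the random walk.** -/
theorem decay (S : Finset Γ) (μ : Γ → ℝ) (κ : Γ →* unitary (H →L[ℂ] H)) {ρ : ℝ}
    (hρ : 0 ≤ ρ) (h : ∀ ξ : H, ‖av S μ κ ξ‖ ≤ ρ * ‖ξ‖) (ζ ξ : H) (n : ℕ) (g : Γ) :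
    (Mk S μ)^[n] (fun g => (inner ℂ ζ ((κ g : H →L[ℂ] H) ξ)).re) g ≤ ρ ^ n * (‖ζ‖ * ‖ξ‖) := by
  rw [Mk_iter_eq]
  refine (Complex.re_le_norm _).trans ((norm_inner_le_norm _ _).trans ?_)
  rw [Pool.Agent.N414.LR.Asm.norm_unit]
  have := av_pow_le S μ κ hρ h n ξ
  calc ‖ζ‖ * ‖((av S μ κ) ^ n) ξ‖ ≤ ‖ζ‖ * (ρ ^ n * ‖ξ‖) := by gcongr
    _ = _ := by ring

end markov

section beta

theorem MM_ap {Λ : Type} (D : Set Λ) (f : L2 Λ) (k : Λ) [Decidable (k ∈ D)] :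
    (MM D f) k = if k ∈ D then f k else 0 := by
  classical
  rw [← inner_dl, ← star_star (MM D), star_MM, ContinuousLinearMap.star_eq_adjoint,
    ContinuousLinearMap.adjoint_inner_right]
  by_cases h : k ∈ D
  · rw [MM_dl_mem h, inner_dl, if_pos h]
  · rw [MM_dl_notMem h, inner_zero_left, if_neg h]

theorem MM_le {Λ : Type} (D : Set Λ) (f : L2 Λ) : ‖MM D f‖ ≤ ‖f‖ := by
  classical
  have h1 := hasSum_sq (MM D f)
  have h2 := hasSum_sq f
  have h3 : ‖MM D f‖ ^ 2 ≤ ‖f‖ ^ 2 := by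
    refine hasSum_le (fun k => ?_) h1 h2
    rw [MM_ap]
    split_ifs
    · exact le_refl _
    · rw [norm_zero, zero_pow two_ne_zero]
      positivity
  exact (sq_le_sq₀ (norm_nonneg _) (norm_nonneg _)).1 h3

variable {Λ : Type} [Group Λ]

/-- the set of the elements which conjugate `a` to `b` -/
def DD (a b : Λ) : Set Λ := {k | k * a * k⁻¹ = b}

theorem mem_DD {a b k : Λ} : k ∈ DD a b ↔ k * a * k⁻¹ = b := Iff.rfl

theorem MM_lam (a b s : Λ) (f : L2 Λ) : ‖MM (DD a b) (lam s f)‖ = ‖MM (DD a (s⁻¹ * b * s)) f‖ := by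
  classical
  have h1 := hasSum_sq (MM (DD a b) (lam s f))
  have h2 := hasSum_sq (MM (DD a (s⁻¹ * b * s)) f)
  rw [← (Equiv.mulLeft s).hasSum_iff] at h1
  have h3 : (fun p => ‖(MM (DD a b) (lam s f)) p‖ ^ 2) ∘ (Equiv.mulLeft s) =
      fun p => ‖(MM (DD a (s⁻¹ * b * s)) f) p‖ ^ 2 := by
    funext k
    show ‖(MM (DD a b) (lam s f)) (s * k)‖ ^ 2 = _
    have e : (lam s f) (s * k) = f k := by
      have e0 : (Equiv.mulLeft s)⁻¹ (s * k) = k := by
        rw [Equiv.Perm.inv_eq_iff_eq]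
        rfl
      rw [lam, UU_apply, e0]
    have e2 : s * k ∈ DD a b ↔ k ∈ DD a (s⁻¹ * b * s) := by
      rw [mem_DD, mem_DD]
      constructor
      · intro h
        rw [← h]
        group
      · intro h
        have : s * k * a * (s * k)⁻¹ = s * (k * a * k⁻¹) * s⁻¹ := by group
        rw [this, h]
        group
    rw [MM_ap, MM_ap, e]
    by_cases h : k ∈ DD a (s⁻¹ * b * s)
    · rw [if_pos h, if_pos (e2.2 h)]
    · rw [if_neg h, if_neg (fun h' => h (e2.1 h'))]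
  rw [h3] at h1
  have h4 := h1.unique h2
  exact (sq_eq_sq₀ (norm_nonneg _) (norm_nonneg _)).1 h4

/-- the unitary `u` does not change the norm -/
theorem norm_mul_unitary {R u : Op Λ} (hR : R ∈ LG Λ) (hu : u ∈ LG Λ) (hu2 : u * star u = 1) :
    ‖R (u (dl 1))‖ = ‖R (dl 1)‖ := by
  have key : ∀ x : Op Λ, ((‖x (dl 1)‖ ^ 2 : ℝ) : ℂ) = cf (star x * x) 1 := by
    intro x
    rw [cf, mul_ap, ContinuousLinearMap.star_eq_adjoint, ContinuousLinearMap.adjoint_inner_right,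
      inner_self_eq_norm_sq_to_K]
    norm_cast
  have h1 := key (R * u)
  have h2 := key R
  have h3 : cf (star (R * u) * (R * u)) 1 = cf (star R * R) 1 := by
    have e : star (R * u) * (R * u) = star u * (star R * R * u) := by
      rw [star_mul]
      simp only [mul_assoc]
    rw [e, cf_comm (star_mem' hu) (mul_mem' (mul_mem' (star_mem' hR) hR) hu), mul_assoc, hu2,
      mul_one]
  rw [h3, ← h2] at h1
  have h4 : ‖(R * u) (dl 1)‖ ^ 2 = ‖R (dl 1)‖ ^ 2 := by exact_mod_cast h1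
  exact (sq_eq_sq₀ (norm_nonneg _) (norm_nonneg _)).1 h4

/-- a vector is approximated by finite sums -/
theorem exists_approx {P : Type} (f : L2 P) {ε : ℝ} (hε : 0 < ε) :
    ∃ F : Finset P, ‖f - ∑ s ∈ F, f s • (dl s : L2 P)‖ < ε := by
  classical
  have h2 : HasSum (fun i => lp.single 2 i (f i)) f := lp.hasSum_single (by norm_num) f
  have h3 : ∀ i, (lp.single 2 i (f i) : L2 P) = f i • dl i := by
    intro i
    apply vec_ext
    intro t
    by_cases ht : t = i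
    · subst ht
      rw [lp.coeFn_smul, Pi.smul_apply, dl_apply_self]
      simp
    · rw [lp.coeFn_smul, Pi.smul_apply, dl_apply_ne ht]
      simp [lp.single_apply, ht]
  simp only [h3] at h2
  obtain ⟨F, hF⟩ := ((Metric.tendsto_nhds.1 h2) ε hε).exists
  refine ⟨F, ?_⟩
  rw [dist_eq_norm] at hF
  rw [norm_sub_rev]
  exact hF

theorem hasSum_dl {P : Type} (f : L2 P) : HasSum (fun i => f i • (dl i : L2 P)) f := by
  classical
  have h2 : HasSum (fun i => lp.single 2 i (f i)) f := lp.hasSum_single (by norm_num) f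
  have h3 : ∀ i, (lp.single 2 i (f i) : L2 P) = f i • dl i := by
    intro i
    apply vec_ext
    intro t
    by_cases ht : t = i
    · subst ht
      rw [lp.coeFn_smul, Pi.smul_apply, dl_apply_self]
      simp
    · rw [lp.coeFn_smul, Pi.smul_apply, dl_apply_ne ht]
      simp [lp.single_apply, ht]
  simp only [h3] at h2
  exact h2

variable {Γ : Type} [Group Γ]

/-- generic ultrafilters: the mass of `v_g` escapes from the sets of the elements which conjugate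
one nontrivial element to another -/
def Gen (v : Γ → Op Λ) (p : Ultrafilter Γ) : Prop :=
  ∀ a b : Λ, a ≠ 1 → ∀ ε : ℝ, 0 < ε → ∀ᶠ g in p, ‖MM (DD a b) (v g (dl 1))‖ < ε

/-- multiplication from the left preserves the escape -/
theorem gen_mul (v : Γ →* unitary (Op Λ)) (hv : ∀ g, (v g : Op Λ) ∈ LG Λ) (p : Ultrafilter Γ)
    (hp : Gen (fun g => (v g : Op Λ)) p) (g' : Γ) (a b : Λ) (ha : a ≠ 1) (ε : ℝ) (hε : 0 < ε) :
    ∀ᶠ g in p, ‖MM (DD a b) ((v (g' * g) : Op Λ) (dl 1))‖ < ε := by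
  obtain ⟨F, hF⟩ := exists_approx ((v g' : Op Λ) (dl 1)) (half_pos hε)
  set f := (v g' : Op Λ) (dl 1) with hf
  set R : Op Λ := (v g' : Op Λ) - ∑ s ∈ F, f s • lam s with hR
  have hRmem : R ∈ LG Λ := by
    rw [hR]
    refine (LG Λ).toStarSubalgebra.sub_mem (hv g') ?_
    exact (LG Λ).toStarSubalgebra.sum_mem fun s _ =>
      (LG Λ).toStarSubalgebra.smul_mem (lam_mem s) _
  have hR1 : ‖R (dl 1)‖ < ε / 2 := by
    rw [hR, sub_apply, sum_apply]
    refine lt_of_le_of_lt (le_of_eq ?_) hF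
    congr 2
    refine Finset.sum_congr rfl fun s _ => ?_
    change f s • lam s (dl 1) = _
    rw [lam_dl, mul_one]
  set C : ℝ := 1 + ∑ s ∈ F, ‖f s‖ with hC
  have hCpos : 0 < C := by
    have : 0 ≤ ∑ s ∈ F, ‖f s‖ := Finset.sum_nonneg fun _ _ => norm_nonneg _
    linarith
  have h1 : ∀ᶠ g in p, ∀ s ∈ F, ‖MM (DD a (s⁻¹ * b * s)) ((v g : Op Λ) (dl 1))‖ < ε / (2 * C) := by
    rw [Filter.eventually_all_finset]
    intro s _
    exact hp a (s⁻¹ * b * s) ha _ (by positivity)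
  filter_upwards [h1] with g hg
  have e : (v (g' * g) : Op Λ) (dl 1) =
      R ((v g : Op Λ) (dl 1)) + ∑ s ∈ F, f s • lam s ((v g : Op Λ) (dl 1)) := by
    rw [v_mul, hR, sub_apply, sum_apply]
    simp only [smul_apply]
    abel
  rw [e, map_add, map_sum]
  refine lt_of_le_of_lt (norm_add_le _ _) ?_
  have h2 : ‖MM (DD a b) (R ((v g : Op Λ) (dl 1)))‖ < ε / 2 := by
    refine lt_of_le_of_lt (MM_le _ _) ?_
    rw [norm_mul_unitary hRmem (hv g) (Unitary.mem_iff.1 (v g).2).2]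
    exact hR1
  have h3 : ‖∑ s ∈ F, MM (DD a b) (f s • lam s ((v g : Op Λ) (dl 1)))‖ ≤ ε / 2 := by
    refine (norm_sum_le _ _).trans ?_
    calc ∑ s ∈ F, ‖MM (DD a b) (f s • lam s ((v g : Op Λ) (dl 1)))‖
        ≤ ∑ s ∈ F, ‖f s‖ * (ε / (2 * C)) := by
          refine Finset.sum_le_sum fun s hs => ?_
          rw [map_smul, norm_smul, MM_lam]
          have := (hg s hs).le
          gcongr
      _ = (∑ s ∈ F, ‖f s‖) * (ε / (2 * C)) := by rw [Finset.sum_mul]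
      _ ≤ C * (ε / (2 * C)) := by
          gcongr
          rw [hC]
          linarith
      _ = ε / 2 := by field_simp
  linarith

end beta

section exist

/-- `ρ` is a spectral gap constant -/
def GapP {Γ : Type} [Group Γ] (S : Finset Γ) (μ : Γ → ℝ) (ρ : ℝ) : Prop :=
  ∀ (H : Type) [NormedAddCommGroup H] [InnerProductSpace ℂ H] [CompleteSpace H]
    (π : Γ →* unitary (H →L[ℂ] H)), NoInv π → ∀ ξ : H, ‖av S μ π ξ‖ ≤ ρ * ‖ξ‖

variable {Γ Λ : Type} [Group Γ] [Group Λ]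

theorem MM_sq {P : Type} (D : Set P) (f : L2 P) [DecidablePred (· ∈ D)] :
    HasSum (fun k => if k ∈ D then ‖f k‖ ^ 2 else 0) (‖MM D f‖ ^ 2) := by
  have h := hasSum_sq (MM D f)
  convert h using 2 with k
  rw [MM_ap]
  split_ifs
  · rfl
  · rw [norm_zero, zero_pow two_ne_zero]

/-- the coefficients of the representation on `ℓ²((Λ × Λ × X)/Λ)` -/
theorem coef_one (v : Γ →* unitary (Op Λ)) (hv : ∀ g, (v g : Op Λ) ∈ LG Λ)
    (κ : Γ →* unitary (Op (Λ × {a : Λ // a ≠ 1})))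
    (hκ : ∀ g, (κ g : Op (Λ × {a : Λ // a ≠ 1})) =
      A _ (v g : Op Λ) * Y (cact Λ) (v g)) (g : Γ) (a b : {a : Λ // a ≠ 1}) :
    inner ℂ (dl ((1 : Λ), b)) ((κ g : Op (Λ × {a : Λ // a ≠ 1})) (dl ((1 : Λ), a))) =
      ((‖MM (DD a.1 b.1) ((v g : Op Λ) (dl 1))‖ ^ 2 : ℝ) : ℂ) := by
  classical
  rw [inner_dl, hκ, mul_ap, AY_entry (cact Λ) (hv g) (hv g),
    ← (MM_sq (DD a.1 b.1) ((v g : Op Λ) (dl 1))).tsum_eq, Complex.ofReal_tsum]
  refine tsum_congr fun k => ?_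
  have e : (cact Λ k a = b) ↔ k ∈ DD a.1 b.1 := by
    rw [mem_DD, ← cact_apply]
    exact Subtype.ext_iff
  by_cases h : k ∈ DD a.1 b.1
  · rw [if_pos h, if_pos (e.2 h), one_mul, inv_one, mul_one, Complex.mul_conj,
      Complex.normSq_eq_norm_sq, cf_eq]
  · rw [if_neg h, if_neg (fun h' => h (e.1 h')), Complex.ofReal_zero]

/-- the sets from which the generic ultrafilters are built are not empty -/
theorem gen_set (S : Finset Γ) (μ : Γ → ℝ) (hpos : ∀ s ∈ S, 0 < μ s)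
    (hsum : ∑ s ∈ S, μ s = 1) {ρ : ℝ} (hρ0 : 0 ≤ ρ) (hρ1 : ρ < 1) (hgap : GapP S μ ρ) (v : Γ →* unitary (Op Λ)) (hv : ∀ g, (v g : Op Λ) ∈ LG Λ)
    (htot : Total v) (hicc : Pool.Agent.N414.LR.IsIcc Λ) (F : Finset {a : Λ // a ≠ 1}) (ε : ℝ)
    (hε : 0 < ε) :
    ∃ g, ∀ a ∈ F, ∀ b ∈ F, ‖MM (DD a.1 b.1) ((v g : Op Λ) (dl 1))‖ ^ 2 < ε := by
  classical
  obtain ⟨κ, hκ⟩ := exists_rep (cact Λ) v hv
  have hno : NoInv κ := noInv_of_infinite (cact Λ) v hv htot κ hκ (cact_infinite hicc)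
  have hgap' := hgap (L2 (Λ × {a : Λ // a ≠ 1})) κ hno
  by_contra hcon
  push Not at hcon
  set ξ : L2 (Λ × {a : Λ // a ≠ 1}) := ∑ a ∈ F, dl ((1 : Λ), a) with hξ
  have hcoef : ∀ g, (inner ℂ ξ ((κ g : Op (Λ × {a : Λ // a ≠ 1})) ξ)).re =
      ∑ a ∈ F, ∑ b ∈ F, ‖MM (DD a.1 b.1) ((v g : Op Λ) (dl 1))‖ ^ 2 := by
    intro g
    rw [hξ, map_sum, inner_sum, Complex.re_sum]
    refine Finset.sum_congr rfl fun a _ => ?_
    rw [sum_inner, Complex.re_sum]
    refine Finset.sum_congr rfl fun b _ => ?_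
    rw [coef_one v hv κ hκ, Complex.ofReal_re]
  have hge : ∀ g, ε ≤ (inner ℂ ξ ((κ g : Op (Λ × {a : Λ // a ≠ 1})) ξ)).re := by
    intro g
    rw [hcoef]
    obtain ⟨a, ha, b, hb, hab⟩ := hcon g
    obtain ⟨q, hq⟩ : ∃ q : {a : Λ // a ≠ 1} → {a : Λ // a ≠ 1} → ℝ,
        ∀ a b, ‖MM (DD a.1 b.1) ((v g : Op Λ) (dl 1))‖ ^ 2 = q a b := ⟨_, fun _ _ => rfl⟩
    have hnn : ∀ a b : {a : Λ // a ≠ 1}, 0 ≤ q a b := fun a b => by
      rw [← hq]
      exact sq_nonneg _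
    simp only [hq] at hab ⊢
    exact hab.trans ((Finset.single_le_sum (fun b _ => hnn a b) hb).trans
      (Finset.single_le_sum (f := fun a => ∑ b ∈ F, q a b)
        (fun a _ => Finset.sum_nonneg fun b _ => hnn a b) ha))
  have hlim : Tendsto (fun n : ℕ => ρ ^ n * (‖ξ‖ * ‖ξ‖)) atTop (𝓝 0) := by
    have := (tendsto_pow_atTop_nhds_zero_of_lt_one hρ0 hρ1).mul_const (‖ξ‖ * ‖ξ‖)
    rwa [zero_mul] at this
  obtain ⟨n, hn⟩ := (hlim.eventually_lt_const hε).exists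
  have h2 := decay S μ κ hρ0 hgap' ξ ξ n 1
  have h3 := Mk_iter_ge S μ hpos hsum _ ε hge n 1
  linarith

/-- **Generic ultrafilters exist.** -/
theorem exists_gen (S : Finset Γ) (μ : Γ → ℝ) (hpos : ∀ s ∈ S, 0 < μ s)
    (hsum : ∑ s ∈ S, μ s = 1) {ρ : ℝ} (hρ0 : 0 ≤ ρ) (hρ1 : ρ < 1) (hgap : GapP S μ ρ) (v : Γ →* unitary (Op Λ)) (hv : ∀ g, (v g : Op Λ) ∈ LG Λ)
    (htot : Total v) (hicc : Pool.Agent.N414.LR.IsIcc Λ) :
    ∃ p : Ultrafilter Γ, Gen (fun g => (v g : Op Λ)) p := by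
  classical
  let E : Finset {a : Λ // a ≠ 1} × ℕ → Set Γ := fun i =>
    {g | ∀ a ∈ i.1, ∀ b ∈ i.1, ‖MM (DD a.1 b.1) ((v g : Op Λ) (dl 1))‖ ^ 2 < 1 / (i.2 + 1 : ℝ)}
  have hne : ∀ i, (E i).Nonempty := fun i =>
    gen_set S μ hpos hsum hρ0 hρ1 hgap v hv htot hicc i.1 _ (by positivity)
  have hmono : ∀ i j : Finset {a : Λ // a ≠ 1} × ℕ, E (i.1 ∪ j.1, max i.2 j.2) ⊆ E i ∩ E j := by
    intro i j g hg
    have h2 : (1 : ℝ) / ((max i.2 j.2 : ℕ) + 1 : ℝ) ≤ 1 / (i.2 + 1 : ℝ) := by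
      gcongr
      exact le_max_left _ _
    have h3 : (1 : ℝ) / ((max i.2 j.2 : ℕ) + 1 : ℝ) ≤ 1 / (j.2 + 1 : ℝ) := by
      gcongr
      exact le_max_right _ _
    constructor
    · intro a ha b hb
      exact lt_of_lt_of_le (hg a (Finset.mem_union_left _ ha) b (Finset.mem_union_left _ hb)) h2
    · intro a ha b hb
      exact lt_of_lt_of_le (hg a (Finset.mem_union_right _ ha) b (Finset.mem_union_right _ hb)) h3
  have hnb : (⨅ i, 𝓟 (E i)).NeBot := by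
    apply Filter.iInf_neBot_of_directed'
    · intro i j
      refine ⟨(i.1 ∪ j.1, max i.2 j.2), ?_, ?_⟩
      · exact Filter.principal_mono.2 fun g hg => (hmono i j hg).1
      · exact Filter.principal_mono.2 fun g hg => (hmono i j hg).2
    · intro i
      exact Filter.principal_neBot_iff.2 (hne i)
  refine ⟨Ultrafilter.of (⨅ i, 𝓟 (E i)), ?_⟩
  intro a b ha ε hε
  by_cases hb : b = 1
  · refine Eventually.of_forall fun g => ?_
    have h2 : DD a b = ∅ := by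
      rw [Set.eq_empty_iff_forall_notMem]
      intro k hk
      rw [mem_DD, hb] at hk
      apply ha
      have : a = k⁻¹ * (k * a * k⁻¹) * k := by group
      rw [this, hk]
      group
    have h3 : MM (DD a b) ((v g : Op Λ) (dl 1)) = 0 := by
      rw [h2]
      apply vec_ext
      intro k
      rw [MM_ap, if_neg (Set.notMem_empty k)]
      rfl
    show ‖MM (DD a b) ((v g : Op Λ) (dl 1))‖ < ε
    rw [h3, norm_zero]
    exact hε
  · obtain ⟨n, hn⟩ := exists_nat_one_div_lt (show (0 : ℝ) < ε ^ 2 by positivity)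
    have h2 : E ({⟨a, ha⟩, ⟨b, hb⟩}, n) ∈ (Ultrafilter.of (⨅ i, 𝓟 (E i)) : Filter Γ) := by
      refine Ultrafilter.of_le _ ?_
      exact Filter.mem_iInf_of_mem _ (Filter.mem_principal_self _)
    filter_upwards [h2] with g hg
    have h3 := hg ⟨a, ha⟩ (Finset.mem_insert_self _ _) ⟨b, hb⟩
      (Finset.mem_insert_of_mem (Finset.mem_singleton_self _))
    have h4 : ‖MM (DD a b) ((v g : Op Λ) (dl 1))‖ ^ 2 < ε ^ 2 := lt_trans h3 hn
    exact lt_of_pow_lt_pow_left₀ 2 hε.le h4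

end exist

end

end Pool.Agent.H52.HD
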