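import Pool.Agent.H52.HD.Four

/-!
# Height dichotomy: from an intertwining vector to an isomorphism of groups, and the converse
-/

set_option autoImplicit false

namespace Pool.Agent.H52.HD

open Pool.Agent.H494R3.GT Pool.Agent.N557.QW Pool.Agent.N414.LR
open Pool.Agent.W661.RC (HasT)
open Pool.Agent.N169.QWP (mul_coeff LG_coeff star_ap commute)
open Pool.Agent.N414.LR.CLS (star_v v_mul v_one inner_v norm_v inner_rgt orth)
open Pool.Agent.N414.LR.SQ (cf_eq norm_dl t_sq rgt_mul rgt_one)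
open Pool.Agent.N414.LR.END (cf_comm mul_mem' star_mem')
open Filter Topology

noncomputable section

variable {Γ Λ : Type} [Group Γ] [Group Λ]

/-- the isomorphism of groups -/
theorem of_intertwiner (hicc : Pool.Agent.N414.LR.IsIcc Γ) (v : Γ →* unitary (Op Λ))
    (hv : ∀ g, (v g : Op Λ) ∈ LG Λ) (hv1 : ∀ g, g ≠ 1 → cf (v g : Op Λ) 1 = 0)
    (hvd : (Submodule.span ℂ (Set.range fun g => (v g : Op Λ) (dl 1))).topologicalClosure = ⊤)
    (f : Γ →* Λ) (χ : Γ →* unitary ℂ) (ζ : L2 Λ) (hζ : ‖ζ‖ = 1)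
    (hvz : ∀ g, (v g : Op Λ) ζ = ((χ g : unitary ℂ) : ℂ) • rgt (f g) ζ) :
    Function.Bijective f ∧ ∃ w : Op Λ, w ∈ LG Λ ∧ w ∈ unitary (Op Λ) ∧
      ∀ g, (v g : Op Λ) = ((χ g : unitary ℂ) : ℂ) • (w * lam (f g) * star w) := by
  have h0 := Pool.Agent.N414.LR.CLS.main Γ Λ v f χ ζ hicc hv hv1 hvz
  have h2 := Pool.Agent.N414.LR.UNI.main Γ Λ v ζ hζ hv hv1 hvd h0
  obtain ⟨w, hw, hwu, hwz⟩ := Pool.Agent.N499.LR.WWW.main Λ ζ hζ h2
  obtain ⟨hbij, hfin⟩ := Pool.Agent.N414.LR.END.t_end Γ Λ v f χ w hv hv1 hvd hw hwu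
    (by rw [hwz]; exact hvz)
  exact ⟨hbij, w, hw, hwu, hfin⟩

theorem total_of_dense (v : Γ →* unitary (Op Λ))
    (hvd : (Submodule.span ℂ (Set.range fun g => (v g : Op Λ) (dl 1))).topologicalClosure = ⊤) :
    Total v := by
  intro ξ hξ
  have hz : ξ ∈ (Submodule.span ℂ (Set.range fun g => (v g : Op Λ) (dl 1)))ᗮ := by
    rw [Submodule.mem_orthogonal]
    intro u hu
    induction hu using Submodule.span_induction with
    | mem x hx =>
      obtain ⟨g, rfl⟩ := hx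
      exact hξ g
    | zero => exact inner_zero_left _
    | add x y _ _ hx hy => rw [inner_add_left, hx, hy, add_zero]
    | smul c x _ hx => rw [inner_smul_left, hx, mul_zero]
  rw [(Submodule.topologicalClosure_eq_top_iff).1 hvd, Submodule.mem_bot] at hz
  exact hz

/-- **The converse**: an intertwining vector bounds the heights from below. -/
theorem height_of_intertwiner (v : Γ →* unitary (Op Λ)) (hv : ∀ g, (v g : Op Λ) ∈ LG Λ)
    (f : Γ → Λ) (χ : Γ → ℂ) (ζ : L2 Λ) (hζ : ‖ζ‖ = 1) (hχ : ∀ g, ‖χ g‖ = 1)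
    (hvz : ∀ g, (v g : Op Λ) ζ = χ g • rgt (f g) ζ) :
    ∃ c : ℝ, 0 < c ∧ ∀ g, c ≤ four (v g : Op Λ) := by
  classical
  obtain ⟨F, hF⟩ := exists_approx ζ (show (0 : ℝ) < 1 / 4 by norm_num)
  set z : L2 Λ := ∑ s ∈ F, ζ s • (dl s : L2 Λ) with hz
  set σ₀ : ℝ := 1 + ∑ s ∈ F, ‖ζ s‖ with hσ
  have hσ' : 0 ≤ ∑ s ∈ F, ‖ζ s‖ := Finset.sum_nonneg fun _ _ => norm_nonneg _
  have hσpos : 0 < σ₀ := by linarith
  have hzn : ‖z‖ ≤ 5 / 4 := by
    have h1 : z = ζ - (ζ - z) := by abel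
    rw [h1]
    refine (norm_sub_le _ _).trans ?_
    rw [hζ]
    linarith
  have hh : ∀ g, ∃ h, 7 / 16 / σ₀ ^ 2 ≤ ‖cf (v g : Op Λ) h‖ := by
    intro g
    by_contra hcon
    push Not at hcon
    have h1 : inner ℂ (rgt (f g) ζ) ((v g : Op Λ) ζ) = χ g := by
      rw [hvz, inner_smul_right, inner_rgt, inner_self_eq_norm_sq_to_K, hζ]
      norm_num
    have h2 : ‖inner ℂ (rgt (f g) z) ((v g : Op Λ) z)‖ < 7 / 16 := by
      have h3 : inner ℂ (rgt (f g) z) ((v g : Op Λ) z) = ∑ y ∈ F, ∑ x ∈ F,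
          (starRingEnd ℂ) (ζ x) * (ζ y * cf (v g : Op Λ) (x * f g * y⁻¹)) := by
        rw [hz, map_sum, map_sum, inner_sum]
        refine Finset.sum_congr rfl fun y _ => ?_
        rw [sum_inner]
        refine Finset.sum_congr rfl fun x _ => ?_
        rw [map_smul, map_smul, inner_smul_left, inner_smul_right, rgt_dl, inner_dl,
          LG_coeff (hv g)]
      rw [h3]
      have h4 : ∀ y ∈ F, ∀ x ∈ F, ‖(starRingEnd ℂ) (ζ x) * (ζ y * cf (v g : Op Λ) (x * f g * y⁻¹))‖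
          ≤ ‖ζ y‖ * (‖ζ x‖ * (7 / 16 / σ₀ ^ 2)) := by
        intro y _ x _
        rw [norm_mul, norm_mul, RCLike.norm_conj]
        have h5 := (hcon (x * f g * y⁻¹)).le
        calc ‖ζ x‖ * (‖ζ y‖ * ‖cf (v g : Op Λ) (x * f g * y⁻¹)‖)
            ≤ ‖ζ x‖ * (‖ζ y‖ * (7 / 16 / σ₀ ^ 2)) := by gcongr
          _ = _ := by ring
      have h6 : ‖∑ y ∈ F, ∑ x ∈ F, (starRingEnd ℂ) (ζ x) * (ζ y * cf (v g : Op Λ) (x * f g * y⁻¹))‖
          ≤ ∑ y ∈ F, ∑ x ∈ F, ‖ζ y‖ * (‖ζ x‖ * (7 / 16 / σ₀ ^ 2)) := by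
        refine (norm_sum_le _ _).trans (Finset.sum_le_sum fun y hy => ?_)
        exact (norm_sum_le _ _).trans (Finset.sum_le_sum fun x hx => h4 y hy x hx)
      refine lt_of_le_of_lt h6 ?_
      simp only [← Finset.mul_sum, ← Finset.sum_mul]
      have h7 : (∑ s ∈ F, ‖ζ s‖) * ((∑ s ∈ F, ‖ζ s‖) * (7 / 16 / σ₀ ^ 2)) =
          7 / 16 * ((∑ s ∈ F, ‖ζ s‖) ^ 2 / σ₀ ^ 2) := by ring
      rw [h7]
      have h8 : (∑ s ∈ F, ‖ζ s‖) ^ 2 / σ₀ ^ 2 < 1 := by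
        rw [div_lt_one (by positivity)]
        have : ∑ s ∈ F, ‖ζ s‖ < σ₀ := by linarith
        gcongr
      linarith
    have h9 : inner ℂ (rgt (f g) ζ) ((v g : Op Λ) ζ) = inner ℂ (rgt (f g) z) ((v g : Op Λ) z) +
        inner ℂ (rgt (f g) (ζ - z)) ((v g : Op Λ) ζ) +
        inner ℂ (rgt (f g) z) ((v g : Op Λ) (ζ - z)) := by
      rw [map_sub, map_sub, inner_sub_left, inner_sub_right]
      ring
    have h10 : ‖inner ℂ (rgt (f g) (ζ - z)) ((v g : Op Λ) ζ)‖ ≤ 1 / 4 := by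
      refine (norm_inner_le_norm _ _).trans ?_
      rw [norm_rgt, norm_v, hζ, mul_one]
      exact hF.le
    have h11 : ‖inner ℂ (rgt (f g) z) ((v g : Op Λ) (ζ - z))‖ ≤ 5 / 16 := by
      refine (norm_inner_le_norm _ _).trans ?_
      rw [norm_rgt, norm_v]
      calc ‖z‖ * ‖ζ - z‖ ≤ 5 / 4 * (1 / 4) := by gcongr
        _ = 5 / 16 := by norm_num
    have h12 := congrArg norm h9
    rw [h1, hχ] at h12
    have h13 := norm_add_le (inner ℂ (rgt (f g) z) ((v g : Op Λ) z) +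
        inner ℂ (rgt (f g) (ζ - z)) ((v g : Op Λ) ζ)) (inner ℂ (rgt (f g) z) ((v g : Op Λ) (ζ - z)))
    have h14 := norm_add_le (inner ℂ (rgt (f g) z) ((v g : Op Λ) z))
        (inner ℂ (rgt (f g) (ζ - z)) ((v g : Op Λ) ζ))
    linarith
  refine ⟨(7 / 16 / σ₀ ^ 2) ^ 4, by positivity, fun g => ?_⟩
  obtain ⟨h, hh'⟩ := hh g
  exact four_ge v hv g (by positivity) h hh'

end

end Pool.Agent.H52.HD
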