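import Pool.Agent.H52.HD.Ipv

/-!
# Height dichotomy: the fourfold representation
-/

set_option autoImplicit false

namespace Pool.Agent.H52.HD

open Pool.Agent.H494R3.GT Pool.Agent.N557.QW Pool.Agent.N414.LR
open Pool.Agent.W661.RC (HasT)
open Pool.Agent.N169.QWP (mul_coeff LG_coeff star_ap commute)
open Pool.Agent.N414.LR.TEN (A B A_coeff B_coeff AB_coeff A_one A_mul A_star B_one B_mul B_star)
open Pool.Agent.N414.LR.BAR (bar bar_apply bar_coeff)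
open Pool.Agent.N414.LR.CLS (star_v v_mul v_one inner_v norm_v inner_rgt orth)
open Pool.Agent.N414.LR.SQ (cf_eq norm_dl t_sq rgt_mul rgt_one)
open Pool.Agent.N414.LR.END (cf_comm mul_mem' star_mem')
open Filter Topology

noncomputable section

variable {Γ Λ : Type} [Group Γ] [Group Λ]

/-- the sum of the fourth powers of the coefficients -/
def four (x : Op Λ) : ℝ := ∑' h, ‖cf x h‖ ^ 4

/-- the representation `v ⊗ conj v` -/
theorem exists_double (v : Γ →* unitary (Op Λ)) (hv : ∀ g, (v g : Op Λ) ∈ LG Λ) :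
    ∃ w : Γ →* unitary (Op (Λ × Λ)), (∀ g, (w g : Op (Λ × Λ)) ∈ LG (Λ × Λ)) ∧
      ∀ g h, cf (w g : Op (Λ × Λ)) h =
        cf (v g : Op Λ) h.1 * (starRingEnd ℂ) (cf (v g : Op Λ) h.2) := by
  have v1 : ((v 1 : unitary (Op Λ)) : Op Λ) = 1 := by rw [map_one]; rfl
  have vm : ∀ g h, ((v (g * h) : unitary (Op Λ)) : Op Λ) = (v g : Op Λ) * (v h : Op Λ) := by
    intro g h
    rw [map_mul]
    rfl
  have un1 : ∀ x : unitary (Op Λ), star (x : Op Λ) * (x : Op Λ) = 1 := fun x =>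
    (Unitary.mem_iff.1 x.2).1
  have un2 : ∀ x : unitary (Op Λ), (x : Op Λ) * star (x : Op Λ) = 1 := fun x =>
    (Unitary.mem_iff.1 x.2).2
  obtain ⟨w, hw⟩ := unitary_mul_hom (fun g => A Λ (v g : Op Λ)) (fun g => B Λ (bar (v g : Op Λ)))
    (by show A Λ ((v 1 : unitary (Op Λ)) : Op Λ) = 1
        rw [v1, A_one])
    (by show B Λ (bar ((v 1 : unitary (Op Λ)) : Op Λ)) = 1
        rw [v1, bar_one, B_one])
    (fun g h => by
        show A Λ ((v (g * h) : unitary (Op Λ)) : Op Λ) = A Λ (v g : Op Λ) * A Λ (v h : Op Λ)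
        rw [vm, A_mul])
    (fun g h => by
        show B Λ (bar ((v (g * h) : unitary (Op Λ)) : Op Λ)) =
          B Λ (bar (v g : Op Λ)) * B Λ (bar (v h : Op Λ))
        rw [vm, bar_mul, B_mul])
    (fun g => by
        show star (A Λ (v g : Op Λ)) * A Λ (v g : Op Λ) = 1
        rw [← A_star, ← A_mul, un1, A_one])
    (fun g => by
        show A Λ (v g : Op Λ) * star (A Λ (v g : Op Λ)) = 1
        rw [← A_star, ← A_mul, un2, A_one])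
    (fun g => by
        show star (B Λ (bar (v g : Op Λ))) * B Λ (bar (v g : Op Λ)) = 1
        rw [← B_star, ← B_mul, ← bar_star, ← bar_mul, un1, bar_one, B_one])
    (fun g => by
        show B Λ (bar (v g : Op Λ)) * star (B Λ (bar (v g : Op Λ))) = 1
        rw [← B_star, ← B_mul, ← bar_star, ← bar_mul, un2, bar_one, B_one])
    (fun g h => Pool.Agent.N414.LR.TEN.comm _ _)
  have hent : ∀ g (p q p' q' : Λ), ((w g : Op (Λ × Λ)) (dl (p, q))) (p', q') =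
      cf (v g : Op Λ) (p' * p⁻¹) * (starRingEnd ℂ) (cf (v g : Op Λ) (q' * q⁻¹)) := by
    intro g p q p' q'
    rw [hw, mul_ap, AB_coeff, bar_entry, LG_coeff (hv g), LG_coeff (hv g)]
  have hcf : ∀ g h, cf (w g : Op (Λ × Λ)) h =
      cf (v g : Op Λ) h.1 * (starRingEnd ℂ) (cf (v g : Op Λ) h.2) := by
    rintro g ⟨h, h'⟩
    rw [cf_eq]
    have e : (1 : Λ × Λ) = (1, 1) := rfl
    rw [e, hent, inv_one, mul_one, mul_one]
  refine ⟨w, fun g => ?_, hcf⟩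
  rw [mem_LG_iff]
  rintro ⟨s, t⟩ ⟨s', t'⟩
  rw [inner_dl, hent, hcf]
  rfl

/-- the left-right action -/
def lract (Λ : Type) [Group Λ] : Λ × Λ →* Equiv.Perm Λ where
  toFun k :=
    { toFun := fun x => k.1 * x * k.2⁻¹
      invFun := fun x => k.1⁻¹ * x * k.2
      left_inv := fun x => by
        change k.1⁻¹ * (k.1 * x * k.2⁻¹) * k.2 = x
        group
      right_inv := fun x => by
        change k.1 * (k.1⁻¹ * x * k.2) * k.2⁻¹ = x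
        group }
  map_one' := by
    ext x
    change 1 * x * 1⁻¹ = x
    group
  map_mul' k l := by
    ext x
    change k.1 * l.1 * x * (k.2 * l.2)⁻¹ = k.1 * (l.1 * x * l.2⁻¹) * k.2⁻¹
    group

theorem lract_apply (k : Λ × Λ) (x : Λ) : lract Λ k x = k.1 * x * k.2⁻¹ := rfl

theorem lract_iff (k : Λ × Λ) (x x' : Λ) : lract Λ k x = x' ↔ k = (k.1, x'⁻¹ * k.1 * x) := by
  rw [lract_apply]
  constructor
  · intro h
    refine Prod.ext rfl ?_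
    change k.2 = x'⁻¹ * k.1 * x
    rw [← h]
    group
  · intro h
    have : k.2 = x'⁻¹ * k.1 * x := by
      conv_lhs => rw [h]
    rw [this]
    group

theorem inj2 (x x' : Λ) : Function.Injective (fun k : Λ => ((k, x'⁻¹ * k * x) : Λ × Λ)) :=
  fun _ _ e => (Prod.ext_iff.1 e).1

section

variable (v : Γ →* unitary (Op Λ)) (w : Γ →* unitary (Op (Λ × Λ)))
  (hw : ∀ g, (w g : Op (Λ × Λ)) ∈ LG (Λ × Λ))
  (hcf : ∀ g h, cf (w g : Op (Λ × Λ)) h =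
        cf (v g : Op Λ) h.1 * (starRingEnd ℂ) (cf (v g : Op Λ) h.2))
  (κ : Γ →* unitary (Op ((Λ × Λ) × Λ)))
  (hκ : ∀ g, (κ g : Op ((Λ × Λ) × Λ)) = A Λ (w g : Op (Λ × Λ)) * Y (lract Λ) (w g))

include hw hcf hκ

theorem four_entry (g : Γ) (z z' : Λ × Λ) (x x' : Λ) :
    ((κ g : Op ((Λ × Λ) × Λ)) (dl (z, x))) (z', x') =
      ∑' k : Λ, (cf (v g : Op Λ) (z'.1 * k * z.1⁻¹) *
        (starRingEnd ℂ) (cf (v g : Op Λ) (z'.2 * (x'⁻¹ * k * x) * z.2⁻¹))) *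
        (starRingEnd ℂ) (cf (v g : Op Λ) k * (starRingEnd ℂ) (cf (v g : Op Λ) (x'⁻¹ * k * x))) := by
  classical
  rw [hκ, mul_ap, AY_entry (lract Λ) (hw g) (hw g), ← (inj2 x x').tsum_eq]
  · refine tsum_congr fun k => ?_
    rw [if_pos ((lract_iff _ _ _).2 rfl), hcf, hcf]
    rfl
  · intro k hk
    by_cases e : lract Λ k x = x'
    · exact ⟨k.1, ((lract_iff _ _ _).1 e).symm⟩
    · exfalso
      apply hk
      beta_reduce
      rw [if_neg e]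

theorem four_one (g : Γ) :
    inner ℂ (dl (((1 : Λ), (1 : Λ)), (1 : Λ)))
      ((κ g : Op ((Λ × Λ) × Λ)) (dl (((1 : Λ), (1 : Λ)), (1 : Λ)))) =
      ((four (v g : Op Λ) : ℝ) : ℂ) := by
  rw [inner_dl, four_entry v w hw hcf κ hκ, four, Complex.ofReal_tsum]
  refine tsum_congr fun k => ?_
  have e : (1 : Λ)⁻¹ * k * 1 = k := by group
  have e2 : (1 : Λ) * k * 1⁻¹ = k := by group
  show (cf (v g : Op Λ) (1 * k * 1⁻¹) *
    (starRingEnd ℂ) (cf (v g : Op Λ) (1 * ((1 : Λ)⁻¹ * k * 1) * 1⁻¹))) *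
    (starRingEnd ℂ) (cf (v g : Op Λ) k * (starRingEnd ℂ) (cf (v g : Op Λ) ((1 : Λ)⁻¹ * k * 1))) = _
  rw [e, e2, Complex.mul_conj, Complex.normSq_eq_norm_sq, norm_mul, RCLike.norm_conj]
  congr 1
  ring

theorem four_le (g : Γ) {c : ℝ} (hv : ∀ g, (v g : Op Λ) ∈ LG Λ)
    (hc : ∀ h, ‖cf (v g : Op Λ) h‖ ≤ c) (b b' : (Λ × Λ) × Λ) :
    ‖((κ g : Op ((Λ × Λ) × Λ)) (dl b)) b'‖ ≤ c ^ 2 := by
  obtain ⟨z, x⟩ := b
  obtain ⟨z', x'⟩ := b'
  rw [four_entry v w hw hcf κ hκ]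
  have hc0 : 0 ≤ c := (norm_nonneg _).trans (hc 1)
  have h1 := t_sq Λ _ (hv g) (v g).2
  let σ : Λ ≃ Λ := (Equiv.mulRight z.1⁻¹).trans (Equiv.mulLeft z'.1)
  have hσ : ∀ k, σ k = z'.1 * k * z.1⁻¹ := fun k => by
    show z'.1 * (k * z.1⁻¹) = _
    group
  have h2 := h1
  rw [← σ.hasSum_iff] at h2
  have h3 : HasSum (fun k => c ^ 2 * ((‖cf (v g : Op Λ) (z'.1 * k * z.1⁻¹)‖ ^ 2 +
      ‖cf (v g : Op Λ) k‖ ^ 2) / 2)) (c ^ 2) := by
    have h4 := ((h2.add h1).div_const 2).mul_left (c ^ 2)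
    have h5 : c ^ 2 * ((1 + 1) / 2) = c ^ 2 := by ring
    rw [h5] at h4
    have h6 : (fun k => c ^ 2 * ((‖cf (v g : Op Λ) (z'.1 * k * z.1⁻¹)‖ ^ 2 +
      ‖cf (v g : Op Λ) k‖ ^ 2) / 2)) = fun k => c ^ 2 *
      ((((fun h => ‖cf (v g : Op Λ) h‖ ^ 2) ∘ σ) k + ‖cf (v g : Op Λ) k‖ ^ 2) / 2) := by
      funext k
      rw [Function.comp_apply, hσ]
    rw [h6]
    exact h4
  refine tsum_of_norm_bounded h3 fun k => ?_
  rw [norm_mul, norm_mul, RCLike.norm_conj, RCLike.norm_conj, norm_mul, RCLike.norm_conj]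
  have ha := hc (z'.2 * (x'⁻¹ * k * x) * z.2⁻¹)
  have hb := hc (x'⁻¹ * k * x)
  have hp := norm_nonneg (cf (v g : Op Λ) (z'.1 * k * z.1⁻¹))
  have hq := norm_nonneg (cf (v g : Op Λ) k)
  calc ‖cf (v g : Op Λ) (z'.1 * k * z.1⁻¹)‖ * ‖cf (v g : Op Λ) (z'.2 * (x'⁻¹ * k * x) * z.2⁻¹)‖ *
        (‖cf (v g : Op Λ) k‖ * ‖cf (v g : Op Λ) (x'⁻¹ * k * x)‖)
      ≤ ‖cf (v g : Op Λ) (z'.1 * k * z.1⁻¹)‖ * c * (‖cf (v g : Op Λ) k‖ * c) := by gcongr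
    _ = c ^ 2 * (‖cf (v g : Op Λ) (z'.1 * k * z.1⁻¹)‖ * ‖cf (v g : Op Λ) k‖) := by ring
    _ ≤ c ^ 2 * ((‖cf (v g : Op Λ) (z'.1 * k * z.1⁻¹)‖ ^ 2 + ‖cf (v g : Op Λ) k‖ ^ 2) / 2) := by
        gcongr
        nlinarith [sq_nonneg (‖cf (v g : Op Λ) (z'.1 * k * z.1⁻¹)‖ - ‖cf (v g : Op Λ) k‖)]

/-- an invariant vector bounds the heights from below -/
theorem height_of_inv (hv : ∀ g, (v g : Op Λ) ∈ LG Λ) (f : L2 ((Λ × Λ) × Λ)) (hf0 : f ≠ 0)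
    (hf : ∀ g, (κ g : Op ((Λ × Λ) × Λ)) f = f) :
    ∃ c : ℝ, 0 < c ∧ ∀ g, ∃ h, c ≤ ‖cf (v g : Op Λ) h‖ := by
  obtain ⟨b, hb⟩ : ∃ b, f b ≠ 0 := by
    by_contra hcon
    push Not at hcon
    exact hf0 (vec_ext hcon)
  have hbpos : 0 < ‖f b‖ := norm_pos_iff.2 hb
  obtain ⟨F, hF⟩ := exists_approx f (half_pos hbpos)
  set fF : L2 ((Λ × Λ) × Λ) := ∑ s ∈ F, f s • dl s with hfF
  set σ₀ : ℝ := 1 + ∑ s ∈ F, ‖f s‖ with hσ₀
  have hσpos : 0 < σ₀ := by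
    have : 0 ≤ ∑ s ∈ F, ‖f s‖ := Finset.sum_nonneg fun _ _ => norm_nonneg _
    linarith
  refine ⟨√(‖f b‖ / (4 * σ₀)), Real.sqrt_pos.2 (by positivity), fun g => ?_⟩
  by_contra hcon
  push Not at hcon
  have h1 : inner ℂ f ((κ g : Op ((Λ × Λ) × Λ)) (dl b)) = inner ℂ f (dl b) := by
    have h2 : inner ℂ ((κ g : Op ((Λ × Λ) × Λ)) f) ((κ g : Op ((Λ × Λ) × Λ)) (dl b)) =
        inner ℂ f (dl b) := by
      rw [← ContinuousLinearMap.adjoint_inner_right, ← ContinuousLinearMap.star_eq_adjoint,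
        ← mul_ap, (Unitary.mem_iff.1 (κ g).2).1]
      rfl
    rwa [hf] at h2
  have h3 : ‖inner ℂ f ((κ g : Op ((Λ × Λ) × Λ)) (dl b))‖ = ‖f b‖ := by
    rw [h1, ← inner_conj_symm, inner_dl, RCLike.norm_conj]
  have h4 : ‖inner ℂ (f - fF) ((κ g : Op ((Λ × Λ) × Λ)) (dl b))‖ < ‖f b‖ / 2 := by
    refine lt_of_le_of_lt (norm_inner_le_norm _ _) ?_
    rw [Pool.Agent.N414.LR.Asm.norm_unit, norm_dl, mul_one]
    exact hF
  have h5 : ‖inner ℂ fF ((κ g : Op ((Λ × Λ) × Λ)) (dl b))‖ ≤ ‖f b‖ / 4 := by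
    rw [hfF, sum_inner]
    refine (norm_sum_le _ _).trans ?_
    calc ∑ s ∈ F, ‖inner ℂ (f s • dl s) ((κ g : Op ((Λ × Λ) × Λ)) (dl b))‖
        ≤ ∑ s ∈ F, ‖f s‖ * (‖f b‖ / (4 * σ₀)) := by
          refine Finset.sum_le_sum fun s _ => ?_
          rw [inner_smul_left, norm_mul, RCLike.norm_conj, inner_dl]
          have h6 := four_le v w hw hcf κ hκ g hv (fun h => (hcon h).le) b s
          rw [Real.sq_sqrt (by positivity)] at h6
          gcongr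
      _ = (∑ s ∈ F, ‖f s‖) * (‖f b‖ / (4 * σ₀)) := by rw [Finset.sum_mul]
      _ ≤ σ₀ * (‖f b‖ / (4 * σ₀)) := by
          gcongr
          rw [hσ₀]
          linarith
      _ = ‖f b‖ / 4 := by field_simp
  have h7 : inner ℂ f ((κ g : Op ((Λ × Λ) × Λ)) (dl b)) =
      inner ℂ (f - fF) ((κ g : Op ((Λ × Λ) × Λ)) (dl b)) +
        inner ℂ fF ((κ g : Op ((Λ × Λ) × Λ)) (dl b)) := by
    rw [← inner_add_left, sub_add_cancel]
  have h8 := norm_add_le (inner ℂ (f - fF) ((κ g : Op ((Λ × Λ) × Λ)) (dl b)))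
    (inner ℂ fF ((κ g : Op ((Λ × Λ) × Λ)) (dl b)))
  rw [← h7, h3] at h8
  linarith

end

theorem four_ge (v : Γ →* unitary (Op Λ)) (hv : ∀ g, (v g : Op Λ) ∈ LG Λ) (g : Γ) {c : ℝ}
    (hc : 0 < c) (h : Λ) (hh : c ≤ ‖cf (v g : Op Λ) h‖) : c ^ 4 ≤ four (v g : Op Λ) := by
  have h1 := t_sq Λ _ (hv g) (v g).2
  have h2 : ∀ k, ‖cf (v g : Op Λ) k‖ ^ 2 ≤ 1 := fun k => by
    have := le_hasSum h1 k (fun _ _ => sq_nonneg _)
    exact this
  have h3 : Summable fun k => ‖cf (v g : Op Λ) k‖ ^ 4 := by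
    refine Summable.of_nonneg_of_le (fun k => by positivity) (fun k => ?_) h1.summable
    have h4 := h2 k
    have h5 : ‖cf (v g : Op Λ) k‖ ^ 4 = ‖cf (v g : Op Λ) k‖ ^ 2 * ‖cf (v g : Op Λ) k‖ ^ 2 := by ring
    rw [h5]
    nlinarith [sq_nonneg ‖cf (v g : Op Λ) k‖]
  rw [four]
  refine le_trans ?_ (h3.le_tsum h fun _ _ => by positivity)
  gcongr

/-- **The dichotomy for homomorphisms into the unitary group.** -/
theorem dichotomy (S : Finset Γ) (μ : Γ → ℝ) (hpos : ∀ s ∈ S, 0 < μ s)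
    (hsum : ∑ s ∈ S, μ s = 1) {ρ : ℝ} (hρ : 0 ≤ ρ) (hρ1 : ρ < 1) (hgap : GapP S μ ρ)
    (hicc : Pool.Agent.N414.LR.IsIcc Γ)
    (v : Γ →* unitary (Op Λ)) (hv : ∀ g, (v g : Op Λ) ∈ LG Λ)
    (hcf1 : ∀ g, g ≠ 1 → cf (v g : Op Λ) 1 = 0) (htot : Total v) :
    ((∃ c : ℝ, 0 < c ∧ ∀ g, c ≤ four (v g : Op Λ)) ∧
      ∃ (f : Γ →* Λ) (χ : Γ →* unitary ℂ) (ζ : L2 Λ), ‖ζ‖ = 1 ∧
        ∀ g, (v g : Op Λ) ζ = ((χ g : unitary ℂ) : ℂ) • rgt (f g) ζ) ∨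
      ∀ (n : ℕ) (g : Γ), (Mk S μ)^[n] (fun g => four (v g : Op Λ)) g ≤ ρ ^ n := by
  obtain ⟨w, hw, hcf⟩ := exists_double v hv
  obtain ⟨κ, hκ⟩ := exists_rep (lract Λ) w hw
  by_cases hno : NoInv κ
  · right
    intro n g
    have h2 := decay S μ κ hρ (hgap _ κ hno) (dl (((1 : Λ), (1 : Λ)), (1 : Λ)))
      (dl (((1 : Λ), (1 : Λ)), (1 : Λ))) n g
    simp only [four_one v w hw hcf κ hκ, Complex.ofReal_re, norm_dl, mul_one] at h2
    exact h2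
  · left
    rw [NoInv] at hno
    push Not at hno
    obtain ⟨f, hf, hf0⟩ := hno
    obtain ⟨c, hc, hh⟩ := height_of_inv v w hw hcf κ hκ hv f hf0 hf
    refine ⟨⟨c ^ 4, by positivity, fun g => ?_⟩, ?_⟩
    · obtain ⟨h, hh'⟩ := hh g
      exact four_ge v hv g hc h hh'
    · exact of_height v hv hc hh (exists_gen S μ hpos hsum hρ hρ1 hgap v hv htot
        (icc_of_icc hicc v hv hcf1 htot))

end

end Pool.Agent.H52.HD
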