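import Pool.Graph.R_pool_sql_team_seeded_63374d34.N414.LR.Final

/-!
# Height dichotomy: the spectral gap of a Kazhdan group
-/

set_option autoImplicit false

namespace Pool.Agent.H52.HD

open Pool.Agent.H494R3.GT Pool.Agent.N557.QW Pool.Agent.N414.LR
open Pool.Agent.W661.RC (HasT)
open Pool.Agent.N414.LR.Asm (norm_unit)

noncomputable section

/-- the representation has no nonzero invariant vector -/
def NoInv {G H : Type} [Group G] [NormedAddCommGroup H] [InnerProductSpace ℂ H] [CompleteSpace H]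
    (π : G →* unitary (H →L[ℂ] H)) : Prop :=
  ∀ ζ : H, (∀ g, (π g : H →L[ℂ] H) ζ = ζ) → ζ = 0

/-- a Kazhdan pair -/
theorem kazhdan (G : Type) [Group G] (hT : HasT G) :
    ∃ (S : Finset G) (δ : ℝ), 0 < δ ∧ ∀ (H : Type) [NormedAddCommGroup H] [InnerProductSpace ℂ H]
      [CompleteSpace H] (π : G →* unitary (H →L[ℂ] H)), NoInv π → ∀ ξ : H, ‖ξ‖ = 1 →
      ∃ s ∈ S, δ < ‖(π s : H →L[ℂ] H) ξ - ξ‖ := by
  obtain ⟨S, hS⟩ := Pool.Agent.N490.LR.KZ.main G hT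
  obtain ⟨δ, hδ, h⟩ := hS (1 / 2) (by norm_num)
  refine ⟨S, δ, hδ, ?_⟩
  intro H _ _ _ π hπ ξ hξ
  by_contra hcon
  push Not at hcon
  obtain ⟨ζ, hζ, hinv⟩ := Pool.Agent.N414.LR.CIR.main G H π ξ (1 / 2) (h H π ξ hξ hcon)
  have h0 := hπ ζ hinv
  rw [h0, zero_sub, norm_neg, hξ] at hζ
  norm_num at hζ

/-- displacement of words -/
theorem word_bound (G : Type) [Group G] (S : Set G) (g : G) (hg : g ∈ Subgroup.closure S) :
    ∃ K : ℝ, 0 < K ∧ ∀ (H : Type) [NormedAddCommGroup H] [InnerProductSpace ℂ H]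
      [CompleteSpace H] (π : G →* unitary (H →L[ℂ] H)) (ξ : H) (r : ℝ), 0 ≤ r →
      (∀ s ∈ S, ‖(π s : H →L[ℂ] H) ξ - ξ‖ ≤ r) → ‖(π g : H →L[ℂ] H) ξ - ξ‖ ≤ K * r := by
  induction hg using Subgroup.closure_induction with
  | mem x hx =>
    refine ⟨1, one_pos, fun H _ _ _ π ξ r hr h => ?_⟩
    rw [one_mul]
    exact h x hx
  | one =>
    refine ⟨1, one_pos, fun H _ _ _ π ξ r hr h => ?_⟩
    rw [map_one]
    change ‖ξ - ξ‖ ≤ _
    rw [sub_self, norm_zero, one_mul]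
    exact hr
  | mul x y _ _ hx hy =>
    obtain ⟨K, hK, h1⟩ := hx
    obtain ⟨L, hL, h2⟩ := hy
    refine ⟨K + L, by positivity, fun H _ _ _ π ξ r hr h => ?_⟩
    have e : (π (x * y) : H →L[ℂ] H) ξ - ξ =
        (π x : H →L[ℂ] H) ((π y : H →L[ℂ] H) ξ - ξ) + ((π x : H →L[ℂ] H) ξ - ξ) := by
      rw [map_mul, map_sub]
      change (π x : H →L[ℂ] H) ((π y : H →L[ℂ] H) ξ) - ξ = _
      abel
    rw [e]
    refine (norm_add_le _ _).trans ?_
    rw [norm_unit]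
    have := h1 H π ξ r hr h
    have := h2 H π ξ r hr h
    linarith
  | inv x _ hx =>
    obtain ⟨K, hK, h1⟩ := hx
    refine ⟨K, hK, fun H _ _ _ π ξ r hr h => ?_⟩
    have e : (π x⁻¹ : H →L[ℂ] H) ξ - ξ = - (π x⁻¹ : H →L[ℂ] H) ((π x : H →L[ℂ] H) ξ - ξ) := by
      rw [map_sub]
      have e2 : (π x⁻¹ : H →L[ℂ] H) ((π x : H →L[ℂ] H) ξ) = ξ := by
        change ((π x⁻¹ * π x : unitary (H →L[ℂ] H)) : H →L[ℂ] H) ξ = ξ
        rw [← map_mul, inv_mul_cancel, map_one]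
        rfl
      rw [e2]
      abel
    rw [e, norm_neg, norm_unit]
    exact h1 H π ξ r hr h

/-- the averaging operator -/
def av {G H : Type} [Group G] [NormedAddCommGroup H] [InnerProductSpace ℂ H] [CompleteSpace H]
    (S : Finset G) (μ : G → ℝ) (π : G →* unitary (H →L[ℂ] H)) : H →L[ℂ] H :=
  ∑ s ∈ S, ((μ s : ℝ) : ℂ) • (π s : H →L[ℂ] H)

theorem av_apply {G H : Type} [Group G] [NormedAddCommGroup H] [InnerProductSpace ℂ H]
    [CompleteSpace H] (S : Finset G) (μ : G → ℝ) (π : G →* unitary (H →L[ℂ] H)) (ξ : H) :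
    av S μ π ξ = ∑ s ∈ S, ((μ s : ℝ) : ℂ) • (π s : H →L[ℂ] H) ξ := by
  rw [av, sum_apply]
  rfl

/-- the variance identity -/
theorem variance {H ι : Type} [NormedAddCommGroup H] [InnerProductSpace ℂ H] (S : Finset ι)
    (μ : ι → ℝ) (hsum : ∑ s ∈ S, μ s = 1) (x : ι → H) (hx : ∀ s ∈ S, ‖x s‖ = 1) (m : H)
    (hm : m = ∑ s ∈ S, ((μ s : ℝ) : ℂ) • x s) :
    ∑ s ∈ S, μ s * ‖x s - m‖ ^ 2 = 1 - ‖m‖ ^ 2 := by
  have h1 : ∀ s ∈ S, μ s * ‖x s - m‖ ^ 2 =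
      μ s - 2 * RCLike.re (inner ℂ (((μ s : ℝ) : ℂ) • x s) m) + μ s * ‖m‖ ^ 2 := by
    intro s hs
    rw [norm_sub_sq (𝕜 := ℂ), hx s hs, inner_smul_left, Complex.conj_ofReal]
    have : RCLike.re (((μ s : ℝ) : ℂ) * inner ℂ (x s) m) = μ s * RCLike.re (inner ℂ (x s) m) := by
      change (((μ s : ℝ) : ℂ) * inner ℂ (x s) m).re = μ s * (inner ℂ (x s) m).re
      rw [Complex.re_ofReal_mul]
    rw [this]
    ring
  rw [Finset.sum_congr rfl h1, Finset.sum_add_distrib, Finset.sum_sub_distrib, hsum,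
    ← Finset.mul_sum, ← Finset.sum_mul, hsum, one_mul, ← map_sum, ← sum_inner, ← hm,
    inner_self_eq_norm_sq]
  ring

/-- **The spectral gap.** -/
theorem gap (G : Type) [Group G] (hT : HasT G) (S : Finset G) (μ : G → ℝ) (h1 : 1 ∈ S)
    (hgen : Subgroup.closure (S : Set G) = ⊤) (hpos : ∀ s ∈ S, 0 < μ s)
    (hsum : ∑ s ∈ S, μ s = 1) :
    ∃ ρ : ℝ, 0 ≤ ρ ∧ ρ < 1 ∧ ∀ (H : Type) [NormedAddCommGroup H] [InnerProductSpace ℂ H]
      [CompleteSpace H] (π : G →* unitary (H →L[ℂ] H)), NoInv π → ∀ ξ : H,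
      ‖av S μ π ξ‖ ≤ ρ * ‖ξ‖ := by
  classical
  obtain ⟨Q, δ, hδ, hQ⟩ := kazhdan G hT
  -- a Kazhdan constant for `S`
  have hK : ∀ q : G, ∃ K : ℝ, 0 < K ∧ ∀ (H : Type) [NormedAddCommGroup H] [InnerProductSpace ℂ H]
      [CompleteSpace H] (π : G →* unitary (H →L[ℂ] H)) (ξ : H) (r : ℝ), 0 ≤ r →
      (∀ s ∈ (S : Set G), ‖(π s : H →L[ℂ] H) ξ - ξ‖ ≤ r) →
      ‖(π q : H →L[ℂ] H) ξ - ξ‖ ≤ K * r := fun q =>
    word_bound G (S : Set G) q (by rw [hgen]; trivial)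
  choose K hKpos hK using hK
  obtain ⟨M, hM, hMK⟩ : ∃ M : ℝ, 0 < M ∧ ∀ q ∈ Q, K q ≤ M := by
    refine ⟨1 + ∑ q ∈ Q, K q, ?_, fun q hq => ?_⟩
    · have : 0 ≤ ∑ q ∈ Q, K q := Finset.sum_nonneg fun q _ => (hKpos q).le
      linarith
    · have := Finset.single_le_sum (fun q _ => (hKpos q).le) hq
      linarith
  obtain ⟨m₀, hm₀, hm₀'⟩ : ∃ m₀ : ℝ, 0 < m₀ ∧ ∀ s ∈ S, m₀ ≤ μ s := by
    obtain ⟨s, hs, hmin⟩ := S.exists_min_image μ ⟨1, h1⟩
    exact ⟨μ s, hpos s hs, hmin⟩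
  have hm₀1 : m₀ ≤ 1 := by
    refine (hm₀' 1 h1).trans ?_
    rw [← hsum]
    exact Finset.single_le_sum (fun s hs => (hpos s hs).le) h1
  set κ : ℝ := m₀ * (min 1 (δ / M)) ^ 2 / 2 with hκ
  have hδM : 0 < min 1 (δ / M) := lt_min one_pos (by positivity)
  have hκpos : 0 < κ := by positivity
  have hκ1 : κ ≤ 1 / 2 := by
    have h2 : min 1 (δ / M) ≤ 1 := min_le_left _ _
    have h3 : (min 1 (δ / M)) ^ 2 ≤ 1 := by nlinarith
    have h4 : m₀ * (min 1 (δ / M)) ^ 2 ≤ 1 := by nlinarith [sq_nonneg (min 1 (δ / M))]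
    rw [hκ]
    linarith
  refine ⟨√(1 - κ), Real.sqrt_nonneg _, ?_, ?_⟩
  · rw [Real.sqrt_lt' one_pos]
    linarith
  intro H _ _ _ π hπ
  -- unit vectors suffice
  have hunit : ∀ ξ : H, ‖ξ‖ = 1 → ‖av S μ π ξ‖ ≤ √(1 - κ) := by
    intro ξ hξ
    apply Real.le_sqrt_of_sq_le
    set m : H := av S μ π ξ with hm
    have hvar := variance S μ hsum (fun s => (π s : H →L[ℂ] H) ξ)
      (fun s _ => by rw [norm_unit, hξ]) m (by rw [hm, av_apply])
    -- a generator which moves `ξ`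
    obtain ⟨s, hs, hsδ⟩ : ∃ s ∈ S, δ / M ≤ ‖(π s : H →L[ℂ] H) ξ - ξ‖ := by
      by_contra hcon
      push Not at hcon
      obtain ⟨q, hq, hqδ⟩ := hQ H π hπ ξ hξ
      have h2 := hK q H π ξ (δ / M) (by positivity) (fun s hs => (hcon s hs).le)
      have h3 : K q * (δ / M) ≤ δ := by
        calc K q * (δ / M) ≤ M * (δ / M) := by
              have := hMK q hq
              gcongr
          _ = δ := by field_simp
      linarith
    set x : G → H := fun s => (π s : H →L[ℂ] H) ξ with hx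
    have hx1 : x 1 = ξ := by
      rw [hx]
      change ((π 1 : unitary (H →L[ℂ] H)) : H →L[ℂ] H) ξ = ξ
      rw [map_one]
      rfl
    have hd : min 1 (δ / M) ≤ ‖x s - m‖ + ‖x 1 - m‖ := by
      refine (min_le_right _ _).trans (hsδ.trans ?_)
      have : (π s : H →L[ℂ] H) ξ - ξ = (x s - m) - (x 1 - m) := by
        rw [hx1, hx]
        abel
      rw [this]
      exact norm_sub_le _ _
    have hs1 : s ≠ 1 := by
      rintro rfl
      have : (0 : ℝ) < δ / M := by positivity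
      have h5 : ‖(π 1 : H →L[ℂ] H) ξ - ξ‖ = 0 := by
        rw [map_one]
        change ‖ξ - ξ‖ = 0
        rw [sub_self, norm_zero]
      rw [h5] at hsδ
      linarith
    have hge : m₀ * ‖x s - m‖ ^ 2 + m₀ * ‖x 1 - m‖ ^ 2 ≤ 1 - ‖m‖ ^ 2 := by
      rw [← hvar]
      have h6 : μ s * ‖x s - m‖ ^ 2 + μ 1 * ‖x 1 - m‖ ^ 2 ≤ ∑ s ∈ S, μ s * ‖x s - m‖ ^ 2 := by
        rw [← Finset.sum_pair (f := fun s => μ s * ‖x s - m‖ ^ 2) hs1]
        refine Finset.sum_le_sum_of_subset_of_nonneg ?_ ?_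
        · intro t ht
          rw [Finset.mem_insert, Finset.mem_singleton] at ht
          rcases ht with rfl | rfl
          · exact hs
          · exact h1
        · intro t ht _
          have := (hpos t ht).le
          positivity
      refine le_trans ?_ h6
      have := hm₀' s hs
      have := hm₀' 1 h1
      gcongr
    have h7 : (min 1 (δ / M)) ^ 2 ≤ 2 * (‖x s - m‖ ^ 2 + ‖x 1 - m‖ ^ 2) := by
      have h8 : (min 1 (δ / M)) ^ 2 ≤ (‖x s - m‖ + ‖x 1 - m‖) ^ 2 := by gcongr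
      nlinarith [sq_nonneg (‖x s - m‖ - ‖x 1 - m‖)]
    have h9 : κ ≤ m₀ * ‖x s - m‖ ^ 2 + m₀ * ‖x 1 - m‖ ^ 2 := by
      rw [hκ]
      nlinarith
    linarith
  intro ξ
  by_cases hξ : ξ = 0
  · rw [hξ, map_zero, norm_zero, mul_zero]
  · have hn : 0 < ‖ξ‖ := norm_pos_iff.2 hξ
    have h2 := hunit (((‖ξ‖⁻¹ : ℝ) : ℂ) • ξ) (by
      rw [norm_smul, Complex.norm_real, norm_inv, norm_norm, inv_mul_cancel₀ hn.ne'])
    rw [map_smul, norm_smul, Complex.norm_real, norm_inv, norm_norm] at h2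
    have h3 : ‖av S μ π ξ‖ = ‖ξ‖ * (‖ξ‖⁻¹ * ‖av S μ π ξ‖) := by
      field_simp
    rw [h3, mul_comm _ ‖ξ‖]
    gcongr

end

end Pool.Agent.H52.HD
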