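import Pool.Agent.H52.HD.Rep

/-!
# Height dichotomy: invariant vectors and infinite conjugacy classes
-/

set_option autoImplicit false

namespace Pool.Agent.H52.HD

open Pool.Agent.H494R3.GT Pool.Agent.N557.QW Pool.Agent.N414.LR
open Pool.Agent.N169.QWP (mul_coeff LG_coeff star_ap commute)
open Pool.Agent.N414.LR.TEN (A B A_coeff B_coeff A_one A_mul A_star B_one B_mul B_star)
open Pool.Agent.N414.LR.CLS (star_v v_mul v_one inner_v norm_v inner_rgt orth)
open Pool.Agent.N414.LR.SQ (cf_eq norm_dl t_sq rgt_mul rgt_one)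
open Pool.Agent.N414.LR.END (cf_comm mul_mem' star_mem')
open Filter Topology

noncomputable section

section pull

variable {P Q : Type}

theorem mem_pull (j : P → Q) (hj : Function.Injective j) (f : L2 Q) :
    Memℓp (fun p => f (j p)) 2 := by
  refine memℓp_gen ?_
  have h := (lp.memℓp f).summable (by norm_num)
  exact h.comp_injective hj

/-- pull back along an injective map -/
def pull (j : P → Q) (hj : Function.Injective j) (f : L2 Q) : L2 P :=
  ⟨fun p => f (j p), mem_pull j hj f⟩

theorem pull_apply (j : P → Q) (hj : Function.Injective j) (f : L2 Q) (p : P) :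
    pull j hj f p = f (j p) := rfl

theorem op_apply (x : Op P) (f : L2 P) (t : P) :
    (x f) t = ∑' r, (x (dl r)) t * f r := by
  have h0 : inner ℂ (dl t) (x f) = inner ℂ (star x (dl t)) f := by
    rw [ContinuousLinearMap.star_eq_adjoint, ContinuousLinearMap.adjoint_inner_left]
  rw [← inner_dl t (x f), h0, lp.inner_eq_tsum]
  refine tsum_congr fun r => ?_
  rw [star_ap, RCLike.inner_apply, starRingEnd_self_apply, mul_comm]

theorem summable_sq (f : L2 P) : Summable fun p => ‖f p‖ ^ 2 := by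
  have h := (lp.memℓp f).summable (by norm_num)
  refine h.congr fun p => ?_
  rw [ENNReal.toReal_ofNat, Real.rpow_ofNat]

theorem hasSum_sq (f : L2 P) : HasSum (fun p => ‖f p‖ ^ 2) (‖f‖ ^ 2) := by
  have h2 := lp.hasSum_norm (p := 2) (by norm_num) f
  have h3 : (fun h => ‖f h‖ ^ 2) = fun h : P => ‖f h‖ ^ (2 : ENNReal).toReal := by
    funext h
    rw [ENNReal.toReal_ofNat, Real.rpow_ofNat]
  rw [h3]
  convert h2 using 1
  rw [ENNReal.toReal_ofNat, Real.rpow_ofNat]

/-- a square summable function takes a nonzero value only finitely often -/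
theorem finite_level (f : L2 P) {c : ℝ} (hc : 0 < c) : {p | c ≤ ‖f p‖}.Finite := by
  have h := (summable_sq f).tendsto_cofinite_zero
  have h1 := h.eventually_lt_const (show (0 : ℝ) < c ^ 2 by positivity)
  rw [Filter.eventually_cofinite] at h1
  refine h1.subset ?_
  intro p hp
  rw [Set.mem_ofPred_eq, not_lt]
  have : c ≤ ‖f p‖ := hp
  gcongr

end pull

section

variable {M X : Type} [Group M]

theorem cf_star {u : Op M} (hu : u ∈ LG M) (k : M) :
    cf (star u) k = (starRingEnd ℂ) (cf u k⁻¹) := by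
  rw [cf_eq, star_ap, LG_coeff hu, one_mul]

theorem injA (z' : M) (x' : X) : Function.Injective (fun k : M => ((k * z', x') : M × X)) :=
  fun _ _ e => mul_right_cancel (Prod.ext_iff.1 e).1

theorem injY (act : M →* Equiv.Perm X) (z' : M) (x' : X) :
    Function.Injective (fun k : M => ((z' * k, act k⁻¹ x') : M × X)) :=
  fun _ _ e => mul_left_cancel (Prod.ext_iff.1 e).1

theorem A_star_apply {u : Op M} (hu : u ∈ LG M) (f : L2 (M × X)) (z' : M) (x' : X) :
    (A X (star u) f) (z', x') = inner ℂ (u (dl 1)) (pull _ (injA z' x') f) := by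
  classical
  rw [op_apply, lp.inner_eq_tsum, ← (injA z' x').tsum_eq]
  · refine tsum_congr fun k => ?_
    rw [A_entry (star_mem' hu), if_pos rfl, cf_star hu, RCLike.inner_apply, pull_apply, mul_comm,
      cf_eq]
    congr 3
    group
  · rintro ⟨z, x⟩ h
    by_cases e : x = x'
    · subst e
      exact ⟨z * z'⁻¹, by simp⟩
    · exfalso
      apply h
      beta_reduce
      rw [A_entry (star_mem' hu), if_neg e, zero_mul]

theorem Y_apply (act : M →* Equiv.Perm X) {u : Op M} (hu : u ∈ LG M) (f : L2 (M × X)) (z' : M)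
    (x' : X) :
    (Y act u f) (z', x') = inner ℂ (u (dl 1)) (pull _ (injY act z' x') f) := by
  classical
  rw [op_apply, lp.inner_eq_tsum, ← (injY act z' x').tsum_eq]
  · refine tsum_congr fun k => ?_
    have e : act (z' * k) (act k⁻¹ x') = act z' x' := by
      rw [← Equiv.Perm.mul_apply, ← map_mul, mul_inv_cancel_right]
    rw [Y_entry act hu, if_pos e, RCLike.inner_apply, pull_apply, mul_comm, cf_eq]
    congr 3
    group
  · rintro ⟨z, x⟩ h
    by_cases e : act z x = act z' x'
    · refine ⟨z'⁻¹ * z, ?_⟩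
      have e2 : act (z'⁻¹ * z)⁻¹ x' = x := by
        rw [mul_inv_rev, inv_inv, map_mul, Equiv.Perm.mul_apply, ← e, ← Equiv.Perm.mul_apply,
          ← map_mul, inv_mul_cancel, map_one]
        rfl
      exact Prod.ext (by simp) e2
    · exfalso
      apply h
      beta_reduce
      rw [Y_entry act hu, if_neg e, zero_mul]

variable {Γ : Type} [Group Γ]

/-- the vectors `v_g δ_1` are total -/
def Total {Λ : Type} [Group Λ] (v : Γ →* unitary (Op Λ)) : Prop :=
  ∀ ξ : L2 Λ, (∀ g, inner ℂ ((v g : Op Λ) (dl 1)) ξ = 0) → ξ = 0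

/-- invariant vectors are conjugation invariant -/
theorem inv_conj (act : M →* Equiv.Perm X) (w : Γ →* unitary (Op M))
    (hw : ∀ g, (w g : Op M) ∈ LG M) (htot : Total w) (κ : Γ →* unitary (Op (M × X)))
    (hκ : ∀ g, (κ g : Op (M × X)) = A X (w g : Op M) * Y act (w g)) (f : L2 (M × X))
    (hf : ∀ g, (κ g : Op (M × X)) f = f) (h z : M) (x : X) :
    f (h * z * h⁻¹, act h x) = f (z, x) := by
  have h1 : ∀ g, Y act (w g) f = A X (star (w g : Op M)) f := by
    intro g
    have h2 : (A X (star (w g : Op M)) * A X (w g : Op M)) = 1 := by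
      rw [← A_mul, (Unitary.mem_iff.1 (w g).2).1, A_one]
    calc Y act (w g) f = (1 : Op (M × X)) (Y act (w g) f) := rfl
      _ = A X (star (w g : Op M)) ((A X (w g : Op M) * Y act (w g)) f) := by rw [← h2]; rfl
      _ = A X (star (w g : Op M)) f := by rw [← hκ, hf]
  -- the two pull backs agree
  have h3 : ∀ (z' : M) (x' : X), pull _ (injY act z' x') f = pull _ (injA z' x') f := by
    intro z' x'
    rw [← sub_eq_zero]
    refine htot _ fun g => ?_
    rw [inner_sub_right, ← Y_apply act (hw g), ← A_star_apply (hw g), h1, sub_self]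
  have h4 := congrArg (fun φ : L2 M => φ h) (h3 (z * h⁻¹) (act h x))
  simp only [pull_apply] at h4
  rw [inv_mul_cancel_right, ← Equiv.Perm.mul_apply, ← map_mul, inv_mul_cancel, map_one,
    ← mul_assoc] at h4
  exact h4.symm

/-- no invariant vectors if the action has infinite orbits -/
theorem noInv_of_infinite (act : M →* Equiv.Perm X) (w : Γ →* unitary (Op M))
    (hw : ∀ g, (w g : Op M) ∈ LG M) (htot : Total w) (κ : Γ →* unitary (Op (M × X)))
    (hκ : ∀ g, (κ g : Op (M × X)) = A X (w g : Op M) * Y act (w g))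
    (hinf : ∀ x : X, {y | ∃ k, act k x = y}.Infinite) : NoInv κ := by
  intro f hf
  apply vec_ext
  rintro ⟨z, x⟩
  by_contra hne
  have hne' : 0 < ‖f (z, x)‖ := norm_pos_iff.2 hne
  refine hinf x (((finite_level f hne').image Prod.snd).subset ?_)
  rintro _ ⟨k, rfl⟩
  refine ⟨(k * z * k⁻¹, act k x), ?_, rfl⟩
  rw [Set.mem_ofPred_eq, inv_conj act w hw htot κ hκ f hf]

end

/-- the conjugation action on the nontrivial elements -/
def cact (Λ : Type) [Group Λ] : Λ →* Equiv.Perm {a : Λ // a ≠ 1} where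
  toFun k :=
    { toFun := fun a => ⟨k * a.1 * k⁻¹, fun h => a.2 (by
        have : a.1 = k⁻¹ * (k * a.1 * k⁻¹) * k := by group
        rw [this, h]
        group)⟩
      invFun := fun a => ⟨k⁻¹ * a.1 * k, fun h => a.2 (by
        have : a.1 = k * (k⁻¹ * a.1 * k) * k⁻¹ := by group
        rw [this, h]
        group)⟩
      left_inv := fun a => Subtype.ext (by
        change k⁻¹ * (k * a.1 * k⁻¹) * k = a.1
        group)
      right_inv := fun a => Subtype.ext (by
        change k * (k⁻¹ * a.1 * k) * k⁻¹ = a.1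
        group) }
  map_one' := by
    ext a
    change 1 * a.1 * 1⁻¹ = a.1
    group
  map_mul' k l := by
    ext a
    change k * l * a.1 * (k * l)⁻¹ = k * (l * a.1 * l⁻¹) * k⁻¹
    group

theorem cact_apply {Λ : Type} [Group Λ] (k : Λ) (a : {a : Λ // a ≠ 1}) :
    (cact Λ k a).1 = k * a.1 * k⁻¹ := rfl

theorem cact_infinite {Λ : Type} [Group Λ] (hicc : Pool.Agent.N414.LR.IsIcc Λ)
    (a : {a : Λ // a ≠ 1}) : {y | ∃ k, cact Λ k a = y}.Infinite := by
  intro hfin
  refine hicc a.1 a.2 ((hfin.image Subtype.val).subset ?_)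
  rintro _ ⟨k, rfl⟩
  exact ⟨cact Λ k a, ⟨k, rfl⟩, rfl⟩

section icc

variable {Γ Λ : Type} [Group Γ] [Group Λ]

/-- `Λ` is icc if `Γ` is -/
theorem icc_of_icc (hicc : Pool.Agent.N414.LR.IsIcc Γ) (v : Γ →* unitary (Op Λ))
    (hv : ∀ g, (v g : Op Λ) ∈ LG Λ) (h1 : ∀ g, g ≠ 1 → cf (v g : Op Λ) 1 = 0) (htot : Total v) :
    Pool.Agent.N414.LR.IsIcc Λ := by
  classical
  intro a ha hfin
  set K : Finset Λ := hfin.toFinset with hK
  have hKmem : ∀ x, x ∈ K ↔ ∃ k : Λ, k * a * k⁻¹ = x := fun x => by
    rw [hK, Set.Finite.mem_toFinset]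
    exact Iff.rfl
  set Z : Op Λ := ∑ b ∈ K, lam b with hZ
  have hZlam : ∀ h : Λ, lam h * Z = Z * lam h := by
    intro h
    rw [hZ, Finset.mul_sum, Finset.sum_mul]
    refine Finset.sum_bij (fun b _ => h * b * h⁻¹) ?_ ?_ ?_ ?_
    · intro b hb
      rw [hKmem] at hb ⊢
      obtain ⟨k, rfl⟩ := hb
      exact ⟨h * k, by group⟩
    · intro b _ b' _ e
      have := mul_right_cancel e
      exact mul_left_cancel this
    · intro b hb
      rw [hKmem] at hb
      obtain ⟨k, rfl⟩ := hb
      refine ⟨h⁻¹ * (k * a * k⁻¹) * h, ?_, by group⟩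
      rw [hKmem]
      exact ⟨h⁻¹ * k, by group⟩
    · intro b _
      rw [← lam_mul, ← lam_mul]
      congr 1
      group
  have hZmem : Z ∈ LG Λ := by
    rw [hZ]
    exact (LG Λ).toStarSubalgebra.sum_mem fun b _ => lam_mem b
  have hZv : ∀ g, Z * (v g : Op Λ) = (v g : Op Λ) * Z := fun g => commute (hv g) hZlam
  let F : Γ → ℂ := fun g => inner ℂ ((v g : Op Λ) (dl 1)) (Z (dl 1))
  have hF : ∀ g k, F (k * g * k⁻¹) = F g := by
    intro g k
    have e1 : ∀ g, F g = cf (star (v g : Op Λ) * Z) 1 := by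
      intro g
      show inner ℂ ((v g : Op Λ) (dl 1)) (Z (dl 1)) = inner ℂ (dl 1) ((star (v g : Op Λ) * Z) (dl 1))
      rw [mul_ap, ContinuousLinearMap.star_eq_adjoint, ContinuousLinearMap.adjoint_inner_right]
    rw [e1, e1]
    have e2 : ∀ g h, (v (g * h) : Op Λ) = (v g : Op Λ) * (v h : Op Λ) := fun g h => by
      rw [map_mul]; rfl
    have e3 : star (v (k * g * k⁻¹) : Op Λ) * Z =
        (v k : Op Λ) * (star (v g : Op Λ) * star (v k : Op Λ) * Z) := by
      rw [star_v, star_v, star_v, ← e2, ← mul_assoc, ← e2]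
      congr 2
      group
    rw [e3, cf_comm (hv k) (mul_mem' (mul_mem' (star_mem' (hv g)) (star_mem' (hv k))) hZmem)]
    congr 1
    rw [mul_assoc, mul_assoc, hZv, ← mul_assoc (star (v k : Op Λ)),
      (Unitary.mem_iff.1 (v k).2).1, one_mul]
  have hF0 : ∀ g, F g = 0 := by
    intro g
    by_cases hg : g = 1
    · rw [hg]
      show inner ℂ ((v 1 : Op Λ) (dl 1)) (Z (dl 1)) = 0
      rw [v_one, inner_dl, hZ, sum_apply]
      have : ∀ b ∈ K, (lam b (dl 1) : L2 Λ) 1 = 0 := by
        intro b hb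
        rw [lam_dl, mul_one]
        apply dl_apply_ne
        rintro rfl
        rw [hKmem] at hb
        obtain ⟨k, hk⟩ := hb
        apply ha
        have : a = k⁻¹ * (k * a * k⁻¹) * k := by group
        rw [this, hk]
        group
      rw [lp.coeFn_sum, Finset.sum_apply]
      exact Finset.sum_eq_zero this
    · by_contra hne
      have hsum := (orth v hv h1 1).inner_products_summable (Z (dl 1))
      have h3 := hsum.tendsto_cofinite_zero
      have h4 := h3.eventually_lt_const (show (0 : ℝ) < ‖F g‖ ^ 2 by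
        have := norm_pos_iff.2 hne
        positivity)
      rw [Filter.eventually_cofinite] at h4
      refine hicc g hg (h4.subset ?_)
      rintro _ ⟨k, rfl⟩
      show ¬ ‖F (k * g * k⁻¹)‖ ^ 2 < _
      rw [hF]
      exact lt_irrefl _
  have hZ0 : Z (dl 1) = 0 := htot _ hF0
  have hZa : (Z (dl 1)) a = 1 := by
    rw [hZ, sum_apply, lp.coeFn_sum, Finset.sum_apply, Finset.sum_eq_single a]
    · rw [lam_dl, mul_one, dl_apply_self]
    · intro b _ hb
      rw [lam_dl, mul_one]
      exact dl_apply_ne hb.symm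
    · intro h
      exfalso
      apply h
      rw [hKmem]
      exact ⟨1, by group⟩
  rw [hZ0] at hZa
  exact zero_ne_one hZa

end icc

end

end Pool.Agent.H52.HD
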