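import Pool.Agent.H52.HD.Cls

/-!
# Height dichotomy: unitaries whose heights are bounded from below
-/

set_option autoImplicit false

namespace Pool.Agent.H52.HD

open Pool.Agent.H494R3.GT Pool.Agent.N557.QW Pool.Agent.N414.LR
open Pool.Agent.N169.QWP (mul_coeff LG_coeff star_ap commute)
open Pool.Agent.N414.LR.CLS (star_v v_mul v_one inner_v norm_v inner_rgt orth)
open Pool.Agent.N414.LR.SQ (cf_eq norm_dl t_sq rgt_mul rgt_one)
open Pool.Agent.N414.LR.END (cf_comm mul_mem' star_mem')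
open Filter Topology

noncomputable section

variable {Γ Λ : Type} [Group Γ] [Group Λ]

/-- `r` bounds the masses of the translates along `p` -/
def Bd (v : Γ →* unitary (Op Λ)) (p : Ultrafilter Γ) (r : ℝ) : Prop :=
  ∀ F : Finset Λ, ∀ᶠ g in p, ∀ h : Λ, ∑ x ∈ F, ‖cf (v g : Op Λ) (x * h)‖ ^ 2 ≤ r

theorem fin_lim (v : Γ →* unitary (Op Λ)) (hv : ∀ g, (v g : Op Λ) ∈ LG Λ) (p : Ultrafilter Γ)
    (s : Γ → Λ) (F : Finset Λ) :
    Tendsto (fun g => ∑ x ∈ F, ‖cf (v g : Op Λ) (x * s g)‖ ^ 2) p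
      (𝓝 (∑ x ∈ F, ‖(TT v p s (dl 1)) x‖ ^ 2)) := by
  refine tendsto_finsetSum _ fun x _ => ?_
  have h1 := TT_entry v hv p s x 1
  refine ((h1.norm).pow 2).congr fun g => ?_
  rw [inv_one, mul_one]

theorem le_of_Bd (v : Γ →* unitary (Op Λ)) (hv : ∀ g, (v g : Op Λ) ∈ LG Λ) (p : Ultrafilter Γ)
    {r : ℝ} (h : Bd v p r) (s : Γ → Λ) : ‖TT v p s (dl 1)‖ ^ 2 ≤ r := by
  refine le_of_tendsto (hasSum_sq (TT v p s (dl 1))) (Eventually.of_forall fun F => ?_)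
  refine le_of_tendsto (fin_lim v hv p s F) ?_
  filter_upwards [h F] with g hg
  exact hg _

theorem ge_of_not_Bd (v : Γ →* unitary (Op Λ)) (hv : ∀ g, (v g : Op Λ) ∈ LG Λ)
    (p : Ultrafilter Γ) {r : ℝ} (h : ¬ Bd v p r) : ∃ s : Γ → Λ, r ≤ ‖TT v p s (dl 1)‖ ^ 2 := by
  classical
  rw [Bd, not_forall] at h
  obtain ⟨F, hF⟩ := h
  rw [← Ultrafilter.eventually_not] at hF
  have h1 : ∀ g, ∃ h : Λ, (¬ ∀ h : Λ, ∑ x ∈ F, ‖cf (v g : Op Λ) (x * h)‖ ^ 2 ≤ r) →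
      r < ∑ x ∈ F, ‖cf (v g : Op Λ) (x * h)‖ ^ 2 := by
    intro g
    by_cases hg : ∀ h : Λ, ∑ x ∈ F, ‖cf (v g : Op Λ) (x * h)‖ ^ 2 ≤ r
    · exact ⟨1, fun h' => absurd hg h'⟩
    · rw [not_forall] at hg
      obtain ⟨h, hh⟩ := hg
      exact ⟨h, fun _ => not_le.1 hh⟩
  choose s hs using h1
  refine ⟨s, ?_⟩
  have h2 : r ≤ ∑ x ∈ F, ‖(TT v p s (dl 1)) x‖ ^ 2 := by
    refine ge_of_tendsto (fin_lim v hv p s F) ?_
    filter_upwards [hF] with g hg
    exact (hs g hg).le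
  exact h2.trans (sum_le_hasSum F (fun _ _ => sq_nonneg _) (hasSum_sq (TT v p s (dl 1))))

theorem Bd_mono (v : Γ →* unitary (Op Λ)) (p : Ultrafilter Γ) {r r' : ℝ} (h : Bd v p r)
    (hr : r ≤ r') : Bd v p r' := by
  intro F
  filter_upwards [h F] with g hg k
  exact (hg k).trans hr

theorem Bd_one (v : Γ →* unitary (Op Λ)) (hv : ∀ g, (v g : Op Λ) ∈ LG Λ) (p : Ultrafilter Γ) :
    Bd v p 1 := by
  classical
  intro F
  refine Eventually.of_forall fun g h => ?_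
  rw [← Finset.sum_image (f := fun k => ‖cf (v g : Op Λ) k‖ ^ 2) (g := fun x => x * h)
    (fun x _ y _ e => mul_right_cancel e)]
  exact sum_le_hasSum _ (fun k _ => sq_nonneg _) (t_sq Λ _ (hv g) (v g).2)

/-- **The minimizer.** -/
theorem minimizer (v : Γ →* unitary (Op Λ)) (hv : ∀ g, (v g : Op Λ) ∈ LG Λ) {δ : ℝ} (hδ : 0 < δ)
    (hh : ∀ g, ∃ h, δ ≤ ‖cf (v g : Op Λ) h‖)
    (hgen : ∃ p : Ultrafilter Γ, Gen (fun g => (v g : Op Λ)) p) :
    ∃ (t : ℝ) (p : Ultrafilter Γ), 0 < t ∧ Gen (fun g => (v g : Op Λ)) p ∧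
      (∀ s : Γ → Λ, ‖TT v p s (dl 1)‖ ^ 2 ≤ t) ∧
      ∀ q : Ultrafilter Γ, Gen (fun g => (v g : Op Λ)) q →
        ∃ s : Γ → Λ, t ≤ ‖TT v q s (dl 1)‖ ^ 2 := by
  classical
  obtain ⟨p₀, hp₀⟩ := hgen
  set R : Set ℝ := {r | ∃ p : Ultrafilter Γ, Gen (fun g => (v g : Op Λ)) p ∧ Bd v p r} with hR
  have hRne : R.Nonempty := ⟨1, p₀, hp₀, Bd_one v hv p₀⟩
  have hlow : ∀ (p : Ultrafilter Γ) (r : ℝ), Bd v p r → δ ^ 2 ≤ r := by
    intro p r h
    obtain ⟨g, hg⟩ := (h {1}).exists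
    obtain ⟨k, hk⟩ := hh g
    have h1 := hg k
    rw [Finset.sum_singleton, one_mul] at h1
    refine le_trans ?_ h1
    gcongr
  have hRb : BddBelow R := ⟨δ ^ 2, by
    rintro r ⟨p, _, h⟩
    exact hlow p r h⟩
  set t := sInf R with ht
  have htpos : 0 < t := by
    have : δ ^ 2 ≤ t := le_csInf hRne (by
      rintro r ⟨p, _, h⟩
      exact hlow p r h)
    have : 0 < δ ^ 2 := by positivity
    linarith
  let K : ℕ → Set (Ultrafilter Γ) := fun n =>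
    {p | Gen (fun g => (v g : Op Λ)) p} ∩ {p | Bd v p (t + 1 / (n + 1 : ℝ))}
  have hclosedG : IsClosed {p : Ultrafilter Γ | Gen (fun g => (v g : Op Λ)) p} := by
    have : {p : Ultrafilter Γ | Gen (fun g => (v g : Op Λ)) p} =
        ⋂ (a : Λ), ⋂ (b : Λ), ⋂ (_ : a ≠ 1), ⋂ (ε : ℝ), ⋂ (_ : 0 < ε),
          {p : Ultrafilter Γ | {g | ‖MM (DD a b) ((v g : Op Λ) (dl 1))‖ < ε} ∈ p} := by
      ext p
      simp only [Set.mem_iInter]
      exact Iff.rfl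
    rw [this]
    refine isClosed_iInter fun a => isClosed_iInter fun b => isClosed_iInter fun _ =>
      isClosed_iInter fun ε => isClosed_iInter fun _ => ?_
    exact ultrafilter_isClosed_basic _
  have hclosedB : ∀ r : ℝ, IsClosed {p : Ultrafilter Γ | Bd v p r} := by
    intro r
    have : {p : Ultrafilter Γ | Bd v p r} = ⋂ (F : Finset Λ),
        {p : Ultrafilter Γ | {g | ∀ h : Λ, ∑ x ∈ F, ‖cf (v g : Op Λ) (x * h)‖ ^ 2 ≤ r} ∈ p} := by
      ext p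
      simp only [Set.mem_iInter]
      exact Iff.rfl
    rw [this]
    exact isClosed_iInter fun F => ultrafilter_isClosed_basic _
  have hKcl : ∀ n, IsClosed (K n) := fun n => hclosedG.inter (hclosedB _)
  have hKne : (⋂ n, K n).Nonempty := by
    refine IsCompact.nonempty_iInter_of_sequence_nonempty_isCompact_isClosed K ?_ ?_ ?_ hKcl
    · rintro n p ⟨h1, h2⟩
      refine ⟨h1, Bd_mono v p h2 ?_⟩
      have : (1 : ℝ) / ((n + 1 : ℕ) + 1 : ℝ) ≤ 1 / (n + 1 : ℝ) := by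
        gcongr
        linarith
      linarith
    · intro n
      have h1 : t < t + 1 / (n + 1 : ℝ) := by
        have : (0 : ℝ) < 1 / (n + 1 : ℝ) := by positivity
        linarith
      obtain ⟨r, ⟨p, hp, hr⟩, hlt⟩ := exists_lt_of_csInf_lt hRne h1
      exact ⟨p, hp, Bd_mono v p hr hlt.le⟩
    · exact (hKcl 0).isCompact
  obtain ⟨p, hp⟩ := hKne
  rw [Set.mem_iInter] at hp
  refine ⟨t, p, htpos, (hp 0).1, ?_, ?_⟩
  · intro s
    have h1 : ∀ n : ℕ, ‖TT v p s (dl 1)‖ ^ 2 ≤ t + 1 / (n + 1 : ℝ) := fun n =>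
      le_of_Bd v hv p (hp n).2 s
    have h2 : Tendsto (fun n : ℕ => t + 1 / (n + 1 : ℝ)) atTop (𝓝 (t + 0)) :=
      tendsto_const_nhds.add tendsto_one_div_add_atTop_nhds_zero_nat
    rw [add_zero] at h2
    exact ge_of_tendsto h2 (Eventually.of_forall h1)
  · intro q hq
    refine attained v hv q htpos fun r hr => ge_of_not_Bd v hv q fun h => ?_
    have : t ≤ r := csInf_le hRb ⟨q, hq, h⟩
    linarith

theorem TT_pure (v : Γ →* unitary (Op Λ)) (p : Ultrafilter Γ) (k : Γ) (s : Γ → Λ) (ξ : L2 Λ) :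
    TT v (pr (pure k) p) s ξ = (v k : Op Λ) (TT v p (fun g => s (k * g)) ξ) := by
  refine ext_inner_left ℂ fun ζ => ?_
  have h1 := TT_pr v (pure k) p s ζ ξ
  exact (tendsto_nhds_unique (tendsto_pure_nhds _ _) h1).symm

/-- equality in the inequality of Cauchy and Schwarz -/
theorem eq_of_inner {H : Type} [NormedAddCommGroup H] [InnerProductSpace ℂ H] {e x : H}
    (he : ‖e‖ = 1) (h : ‖inner ℂ e x‖ = ‖x‖) : x = inner ℂ e x • e := by
  rw [← sub_eq_zero, ← norm_eq_zero, ← sq_eq_zero_iff, norm_sub_sq (𝕜 := ℂ), inner_smul_right,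
    norm_smul, he, mul_one, h, ← inner_conj_symm x e, Complex.mul_conj]
  rw [Complex.normSq_eq_norm_sq, h]
  have : RCLike.re (((‖x‖ ^ 2 : ℝ) : ℂ)) = ‖x‖ ^ 2 := Complex.ofReal_re _
  rw [this]
  ring

/-- (KEY) -/
theorem key (v : Γ →* unitary (Op Λ)) (hv : ∀ g, (v g : Op Λ) ∈ LG Λ) {t : ℝ} (ht : 0 < t)
    (p : Ultrafilter Γ) (hp : Gen (fun g => (v g : Op Λ)) p)
    (hp1 : ∀ s : Γ → Λ, ‖TT v p s (dl 1)‖ ^ 2 ≤ t)
    (hq : ∀ q : Ultrafilter Γ, Gen (fun g => (v g : Op Λ)) q →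
      ∃ s : Γ → Λ, t ≤ ‖TT v q s (dl 1)‖ ^ 2) :
    ∃ w : L2 Λ, ‖w‖ = 1 ∧ ∀ k, ∃ (c : ℂ) (a : Λ), ‖c‖ = 1 ∧ (v k : Op Λ) w = c • rgt a w := by
  -- the contractions
  have hK1 : ∀ k : Γ, ∃ x h : Γ → Λ, ‖TT v p h (dl 1)‖ ^ 2 = t ∧
      ‖TT v p x ((v k : Op Λ) (TT v p h (dl 1)))‖ = ‖TT v p h (dl 1)‖ := by
    intro k
    have hpk : Gen (fun g => (v g : Op Λ)) (pr (pure k) p) := gen_pr v hv _ p hp
    obtain ⟨x, h, h1, h2⟩ := attain v hv p (pr (pure k) p) ht (fun s => by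
      rw [TT_pure, norm_v]
      exact hp1 _) (hq _ (gen_pr v hv p _ hpk))
    refine ⟨x, fun g => h (k * g), ?_, ?_⟩
    · rw [TT_pure, norm_v] at h1
      exact h1
    · rw [TT_pure, norm_v] at h2
      exact h2
  have hsq : 0 < √t := Real.sqrt_pos.2 ht
  have hnorm : ∀ h : Γ → Λ, ‖TT v p h (dl 1)‖ ^ 2 = t → ‖TT v p h (dl 1)‖ = √t := by
    intro h h1
    rw [← h1, Real.sqrt_sq (norm_nonneg _)]
  obtain ⟨x₁, h₁, ht₁, hT₁⟩ := hK1 1
  rw [v_one] at hT₁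
  set η₁ := TT v p h₁ (dl 1) with hη₁
  have hη₁n : ‖η₁‖ = √t := hnorm h₁ ht₁
  set w' : L2 Λ := ((√t : ℝ) : ℂ)⁻¹ • η₁ with hw'
  have hw'n : ‖w'‖ = 1 := by
    rw [hw', norm_smul, norm_inv, Complex.norm_real, Real.norm_of_nonneg hsq.le, hη₁n,
      inv_mul_cancel₀ hsq.ne']
  set w := TT v p x₁ w' with hw
  have hwn : ‖w‖ = 1 := by
    rw [hw, hw', map_smul, norm_smul, norm_inv, Complex.norm_real, Real.norm_of_nonneg hsq.le,
      hT₁, hη₁n, inv_mul_cancel₀ hsq.ne']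
  obtain ⟨hrank, hHS⟩ := rank_one (TT v p x₁) (hs_le v hv p hp x₁) w' hw'n hwn
  -- the profiles are multiples of translates of `w`
  have hprof : ∀ h : Γ → Λ, ‖TT v p h (dl 1)‖ ^ 2 = t →
      ∃ (c : ℂ) (a : Λ), c ≠ 0 ∧ TT v p h (dl 1) = c • rgt a w := by
    intro h hh
    have hne : TT v p h (dl 1) ≠ 0 := by
      intro h0
      rw [h0, norm_zero] at hh
      norm_num at hh
      exact ht.ne hh
    obtain ⟨a, b, hab⟩ := double_coset v hv p hp x₁ hHS h hne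
    have e1 : TT v p h (dl 1) = inner ℂ w' (dl b⁻¹) • rgt a⁻¹ w := by
      have e2 : TT v p (fun g => x₁ g * b) (dl 1) = TT v p x₁ (dl b⁻¹) := by
        rw [TT_dl v p x₁ b⁻¹, inv_inv]
      have e3 : ∀ᶠ g in p, h g = a * (x₁ g * b) := by
        filter_upwards [hab] with g hg
        rw [hg, mul_assoc]
      rw [TT_class v hv p e3, e2, hrank, map_smul]
    refine ⟨inner ℂ w' (dl b⁻¹), a⁻¹, ?_, e1⟩
    intro h0
    rw [h0, zero_smul] at e1
    exact hne e1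
  obtain ⟨c₁, a₁, hc₁, hη₁'⟩ := hprof h₁ ht₁
  refine ⟨w, hwn, fun k => ?_⟩
  obtain ⟨x, h, hth, hTx⟩ := hK1 k
  obtain ⟨c, a, hc, hη⟩ := hprof h hth
  have hηn : ‖TT v p h (dl 1)‖ = √t := hnorm h hth
  set η := (v k : Op Λ) (TT v p h (dl 1)) with hηdef
  have hηn' : ‖η‖ = √t := by rw [hηdef, norm_v, hηn]
  -- a nonzero column of `TT v p x`
  obtain ⟨y, hy⟩ : ∃ y, TT v p x (dl y) ≠ 0 := by
    by_contra hcon
    push Not at hcon
    have h0 : TT v p x = 0 := op_ext fun y => by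
      rw [hcon]
      rfl
    rw [h0, hηn] at hTx
    change ‖(0 : L2 Λ)‖ = _ at hTx
    rw [norm_zero] at hTx
    exact hsq.ne hTx
  rw [TT_dl] at hy
  obtain ⟨a', b', hab'⟩ := double_coset v hv p hp x₁ hHS _ hy
  have e4 : ∀ᶠ g in p, x g = a' * (x₁ g * (b' * y)) := by
    filter_upwards [hab'] with g hg
    have : x g = (x g * y⁻¹) * y := by group
    rw [this, hg]
    group
  have e5 : ∀ ξ, TT v p x ξ = rgt a'⁻¹ (TT v p x₁ (rgt (b' * y)⁻¹ ξ)) := by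
    intro ξ
    rw [TT_class v hv p e4, TT_rgt, inv_inv]
  rw [e5, norm_rgt, hrank, norm_smul, hwn, mul_one, hηn] at hTx
  set b : Λ := (b' * y)⁻¹ with hb
  have h5 : ‖inner ℂ w' (rgt b η)‖ = ‖rgt b η‖ := by
    rw [hTx, norm_rgt, hηn']
  have h6 := eq_of_inner hw'n h5
  -- solve for `v_k w`
  have h7 : η = inner ℂ w' (rgt b η) • rgt b⁻¹ w' := by
    have := congrArg (fun z => rgt b⁻¹ z) h6
    simp only [rgt_rgt, mul_inv_cancel, rgt_one', map_smul] at this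
    exact this
  have h8 : η = c • rgt a ((v k : Op Λ) w) := by
    rw [hηdef, hη, map_smul, v_rgt v hv]
  have h9 : w' = (((√t : ℝ) : ℂ)⁻¹ * c₁) • rgt a₁ w := by
    rw [hw', hη₁, hη₁', smul_smul]
  obtain ⟨C, hC⟩ : ∃ C : ℂ, c • rgt a ((v k : Op Λ) w) = C • rgt b⁻¹ (rgt a₁ w) := by
    refine ⟨inner ℂ w' (rgt b η) * (((√t : ℝ) : ℂ)⁻¹ * c₁), ?_⟩
    rw [← h8]
    conv_lhs => rw [h7, h9, map_smul, smul_smul, ← h9]
  have h10 : (v k : Op Λ) w = (c⁻¹ * C) • rgt (a₁ * b⁻¹ * a⁻¹) w := by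
    have h11 := congrArg (fun z => c⁻¹ • rgt a⁻¹ z) hC
    simp only [map_smul, rgt_rgt, mul_inv_cancel, rgt_one', smul_smul, inv_mul_cancel₀ hc,
      one_smul] at h11
    exact h11
  refine ⟨c⁻¹ * C, a₁ * b⁻¹ * a⁻¹, ?_, h10⟩
  have h12 := congrArg norm h10
  rw [norm_v, norm_smul, norm_rgt, hwn, mul_one] at h12
  exact h12.symm

/-- the translation is unique -/
theorem key_unique (v : Γ →* unitary (Op Λ)) (hv : ∀ g, (v g : Op Λ) ∈ LG Λ)
    (p : Ultrafilter Γ) (hp : Gen (fun g => (v g : Op Λ)) p) (w : L2 Λ) (hw : ‖w‖ = 1)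
    (c : Γ → ℂ) (f : Γ → Λ) (hc : ∀ k, ‖c k‖ = 1) (h : ∀ k, (v k : Op Λ) w = c k • rgt (f k) w)
    (a : Λ) (χ : ℂ) (ha : rgt a w = χ • w) : a = 1 := by
  classical
  by_contra hne
  have hχ : ‖χ‖ = 1 := by
    have := congrArg norm ha
    rw [norm_rgt, norm_smul, hw, mul_one] at this
    exact this.symm
  have hck : ∀ k, c k ≠ 0 := fun k h0 => by
    have := hc k
    rw [h0, norm_zero] at this
    exact zero_ne_one this
  -- finitely many stabilizers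
  have hfin : {b : Λ | rgt b w = χ • w}.Finite := by
    obtain ⟨x₀, hx₀⟩ : ∃ x, w x ≠ 0 := by
      by_contra hcon
      push Not at hcon
      have : w = 0 := vec_ext hcon
      rw [this, norm_zero] at hw
      exact zero_ne_one hw
    have h1 := finite_level w (norm_pos_iff.2 hx₀)
    refine Set.Finite.of_finite_image (f := fun b => x₀ * b) (h1.subset ?_) (fun b _ b' _ e =>
      mul_left_cancel e)
    rintro _ ⟨b, hb, rfl⟩
    have h2 := congrArg (fun z : L2 Λ => ‖z (x₀ * b)‖) hb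
    simp only [rgt_apply, mul_inv_cancel_right] at h2
    change ‖w x₀‖ = ‖χ * w (x₀ * b)‖ at h2
    rw [norm_mul, hχ, one_mul] at h2
    exact h2.le
  have hconj : ∀ k, rgt (f k * a * (f k)⁻¹) w = χ • w := by
    intro k
    rw [← rgt_rgt, ← rgt_rgt]
    have h1 : rgt (f k) w = (c k)⁻¹ • (v k : Op Λ) w := by
      rw [h k, smul_smul, inv_mul_cancel₀ (hck k), one_smul]
    have h2 : rgt a (rgt (f k) w) = χ • rgt (f k) w := by
      rw [h1, map_smul, ← v_rgt v hv, ha, map_smul, smul_comm]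
    rw [h2, map_smul, rgt_rgt, mul_inv_cancel, rgt_one']
  obtain ⟨b, hb⟩ : ∃ b, ∀ᶠ k in p, f k * a * (f k)⁻¹ = b := by
    have h7 : (⋃ b ∈ {b : Λ | rgt b w = χ • w}, {k | f k * a * (f k)⁻¹ = b}) ∈ p := by
      refine Filter.univ_mem' fun k => ?_
      exact Set.mem_biUnion (show f k * a * (f k)⁻¹ ∈ {b : Λ | rgt b w = χ • w} from hconj k) rfl
    rw [Ultrafilter.finite_biUnion_mem_iff hfin] at h7
    obtain ⟨b, _, he⟩ := h7
    exact ⟨b, he⟩
  have h0 : TT v p f w = 0 := by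
    refine TT_zero v hv p hp f a b hne ?_ w
    filter_upwards [hb] with k hk
    rw [← hk]
    group
  have h1 := (TT_tendsto v p f w w).norm
  rw [h0, inner_zero_right, norm_zero] at h1
  have h2 : ∀ k, ‖inner ℂ w ((v k : Op Λ) (rgt (f k)⁻¹ w))‖ = 1 := by
    intro k
    rw [v_rgt v hv, h k, map_smul, rgt_rgt, mul_inv_cancel, rgt_one', inner_smul_right, norm_mul,
      hc k, one_mul, inner_self_eq_norm_sq_to_K, hw]
    norm_num
  simp only [h2] at h1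
  exact one_ne_zero (tendsto_nhds_unique tendsto_const_nhds h1)

/-- **Heights bounded from below.** -/
theorem of_height (v : Γ →* unitary (Op Λ)) (hv : ∀ g, (v g : Op Λ) ∈ LG Λ) {δ : ℝ} (hδ : 0 < δ)
    (hh : ∀ g, ∃ h, δ ≤ ‖cf (v g : Op Λ) h‖)
    (hgen : ∃ p : Ultrafilter Γ, Gen (fun g => (v g : Op Λ)) p) :
    ∃ (f : Γ →* Λ) (χ : Γ →* unitary ℂ) (ζ : L2 Λ), ‖ζ‖ = 1 ∧
      ∀ g, (v g : Op Λ) ζ = ((χ g : unitary ℂ) : ℂ) • rgt (f g) ζ := by
  obtain ⟨t, p, ht, hp, hp1, hq⟩ := minimizer v hv hδ hh hgen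
  obtain ⟨w, hw, hk⟩ := key v hv ht p hp hp1 hq
  choose c f hc h using hk
  have huniq := key_unique v hv p hp w hw c f hc h
  have hck : ∀ k, c k ≠ 0 := fun k h0 => by
    have := hc k
    rw [h0, norm_zero] at this
    exact zero_ne_one this
  have hw0 : ∀ a, rgt a w ≠ 0 := fun a h0 => by
    have := norm_rgt a w
    rw [h0, norm_zero, hw] at this
    exact zero_ne_one this
  have hu : ∀ (c c' : ℂ) (a b : Λ), c ≠ 0 → c • rgt a w = c' • rgt b w → a = b ∧ c = c' := by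
    intro c c' a b hc e
    have h1 := congrArg (fun z => c⁻¹ • rgt b⁻¹ z) e
    simp only [map_smul, smul_smul, rgt_rgt, inv_mul_cancel₀ hc, one_smul, mul_inv_cancel,
      rgt_one'] at h1
    have h2 := huniq _ _ h1
    have h3 : a = b := mul_inv_eq_one.1 h2
    subst h3
    refine ⟨rfl, ?_⟩
    exact smul_left_injective ℂ (hw0 a) e
  have hmul : ∀ k l, f (k * l) = f k * f l ∧ c (k * l) = c k * c l := by
    intro k l
    refine hu _ _ _ _ (hck _) ?_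
    rw [← h, v_mul, h l, map_smul, v_rgt v hv, h k, map_smul, smul_smul, rgt_rgt, mul_comm (c l)]
  have hone : f 1 = 1 ∧ c 1 = 1 := by
    refine hu _ _ _ _ (hck _) ?_
    rw [← h, v_one, rgt_one', one_smul]
  have hcu : ∀ k, c k ∈ unitary ℂ := by
    intro k
    rw [Unitary.mem_iff]
    have h1 : star (c k) * c k = 1 := by
      change (starRingEnd ℂ) (c k) * c k = 1
      rw [← Complex.normSq_eq_conj_mul_self, Complex.normSq_eq_norm_sq, hc]
      norm_num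
    exact ⟨h1, by rw [mul_comm]; exact h1⟩
  refine ⟨{ toFun := f, map_one' := hone.1, map_mul' := fun k l => (hmul k l).1 },
    { toFun := fun k => ⟨c k, hcu k⟩, map_one' := Subtype.ext hone.2,
      map_mul' := fun k l => Subtype.ext (hmul k l).2 }, w, hw, fun g => h g⟩

end

end Pool.Agent.H52.HD
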