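import Pool.Agent.H52.HD.Dec

/-!
# Height dichotomy: weak limits along ultrafilters
-/

set_option autoImplicit false

namespace Pool.Agent.H52.HD

open Pool.Agent.H494R3.GT Pool.Agent.N557.QW Pool.Agent.N414.LR
open Pool.Agent.N169.QWP (mul_coeff LG_coeff star_ap commute)
open Pool.Agent.N414.LR.CLS (star_v v_mul v_one inner_v norm_v inner_rgt orth)
open Pool.Agent.N414.LR.SQ (cf_eq norm_dl t_sq rgt_mul rgt_one)
open Pool.Agent.N414.LR.END (cf_comm mul_mem' star_mem')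
open Filter Topology

noncomputable section

section wlim

variable {ι H : Type} [NormedAddCommGroup H] [InnerProductSpace ℂ H] [CompleteSpace H]

theorem exists_lim (p : Ultrafilter ι) (f : ι → ℂ) (C : ℝ) (hf : ∀ i, ‖f i‖ ≤ C) :
    ∃ z : ℂ, ‖z‖ ≤ C ∧ Tendsto f p (𝓝 z) := by
  have hK : IsCompact (Metric.closedBall (0 : ℂ) C) := isCompact_closedBall 0 C
  obtain ⟨z, hz, hle⟩ := hK.ultrafilter_le_nhds (p.map f) (by
    rw [Ultrafilter.coe_map, Filter.le_principal_iff, Filter.mem_map]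
    refine Filter.univ_mem' fun i => ?_
    show f i ∈ Metric.closedBall (0 : ℂ) C
    rw [mem_closedBall_zero_iff]
    exact hf i)
  exact ⟨z, mem_closedBall_zero_iff.1 hz, hle⟩

/-- **Weak limits of contractions.** -/
theorem exists_wlim (p : Ultrafilter ι) (A : ι → H →L[ℂ] H) (hA : ∀ i ξ, ‖A i ξ‖ ≤ ‖ξ‖) :
    ∃ T : H →L[ℂ] H, (∀ ξ, ‖T ξ‖ ≤ ‖ξ‖) ∧
      ∀ ζ ξ, Tendsto (fun i => inner ℂ ζ (A i ξ)) p (𝓝 (inner ℂ ζ (T ξ))) := by
  have hb : ∀ ζ ξ i, ‖inner ℂ ζ (A i ξ)‖ ≤ ‖ζ‖ * ‖ξ‖ := by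
    intro ζ ξ i
    refine (norm_inner_le_norm _ _).trans ?_
    have := hA i ξ
    gcongr
  choose L hL hlim using fun ζ ξ => exists_lim p (fun i => inner ℂ ζ (A i ξ)) _ (hb ζ ξ)
  let B₀ : H →ₗ⋆[ℂ] H →ₗ[ℂ] ℂ := LinearMap.mk₂'ₛₗ (starRingEnd ℂ) (RingHom.id ℂ) L
    (fun ζ ζ' ξ => tendsto_nhds_unique (hlim _ _) (by
      simp only [inner_add_left]
      exact (hlim ζ ξ).add (hlim ζ' ξ)))
    (fun c ζ ξ => tendsto_nhds_unique (hlim _ _) (by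
      simp only [inner_smul_left, smul_eq_mul]
      exact (hlim ζ ξ).const_mul _))
    (fun ζ ξ ξ' => tendsto_nhds_unique (hlim _ _) (by
      simp only [map_add, inner_add_right]
      exact (hlim ζ ξ).add (hlim ζ ξ')))
    (fun c ζ ξ => tendsto_nhds_unique (hlim _ _) (by
      simp only [map_smul, inner_smul_right, smul_eq_mul]
      exact (hlim ζ ξ).const_mul _))
  let B : H →L⋆[ℂ] H →L[ℂ] ℂ := B₀.mkContinuous₂ 1 (fun ζ ξ => by
    rw [one_mul]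
    exact hL ζ ξ)
  refine ⟨ContinuousLinearMap.adjoint (InnerProductSpace.continuousLinearMapOfBilin B), ?_⟩
  have key : ∀ ζ ξ, inner ℂ ζ (ContinuousLinearMap.adjoint
      (InnerProductSpace.continuousLinearMapOfBilin B) ξ) = L ζ ξ := by
    intro ζ ξ
    rw [ContinuousLinearMap.adjoint_inner_right,
      InnerProductSpace.continuousLinearMapOfBilin_apply]
    rfl
  constructor
  · intro ξ
    set η := ContinuousLinearMap.adjoint (InnerProductSpace.continuousLinearMapOfBilin B) ξ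
      with hη
    have h1 := key η ξ
    rw [← hη] at h1
    have h2 := hL η ξ
    rw [← h1, inner_self_eq_norm_sq_to_K, norm_pow] at h2
    have h3 : ‖((‖η‖ : ℝ) : ℂ)‖ = ‖η‖ := by rw [Complex.norm_real, norm_norm]
    change ‖((‖η‖ : ℝ) : ℂ)‖ ^ 2 ≤ _ at h2
    rw [h3, sq] at h2
    by_cases h0 : ‖η‖ = 0
    · rw [h0]
      exact norm_nonneg _
    · have h4 : 0 < ‖η‖ := lt_of_le_of_ne (norm_nonneg _) (Ne.symm h0)
      exact le_of_mul_le_mul_left h2 h4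
  · intro ζ ξ
    rw [key]
    exact hlim ζ ξ

end wlim

variable {Γ Λ : Type} [Group Γ] [Group Λ]

theorem norm_rgt (a : Λ) (ξ : L2 Λ) : ‖rgt a ξ‖ = ‖ξ‖ := by
  have h := inner_rgt a ξ ξ
  rw [inner_self_eq_norm_sq_to_K, inner_self_eq_norm_sq_to_K] at h
  have h2 : ‖rgt a ξ‖ ^ 2 = ‖ξ‖ ^ 2 := by exact_mod_cast h
  exact (sq_eq_sq₀ (norm_nonneg _) (norm_nonneg _)).1 h2

theorem rgt_rgt (a b : Λ) (ξ : L2 Λ) : rgt a (rgt b ξ) = rgt (b * a) ξ := by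
  rw [← rgt_mul]
  rfl

theorem rgt_one' (ξ : L2 Λ) : rgt (1 : Λ) ξ = ξ := by
  rw [rgt_one]
  rfl

theorem rgt_apply (a x : Λ) (ξ : L2 Λ) : (rgt a ξ) x = ξ (x * a⁻¹) := by
  have e0 : (Equiv.mulRight a)⁻¹ x = x * a⁻¹ := by
    rw [Equiv.Perm.inv_eq_iff_eq]
    show x = x * a⁻¹ * a
    group
  rw [rgt, UU_apply, e0]

/-- weak limits of `v_g · rgt (s g)⁻¹` -/
def TT (v : Γ →* unitary (Op Λ)) (p : Ultrafilter Γ) (s : Γ → Λ) : Op Λ :=
  (exists_wlim p (fun g => (v g : Op Λ) * rgt (s g)⁻¹) (fun g ξ => by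
    rw [mul_ap, norm_v, norm_rgt])).choose

theorem TT_le (v : Γ →* unitary (Op Λ)) (p : Ultrafilter Γ) (s : Γ → Λ) (ξ : L2 Λ) :
    ‖TT v p s ξ‖ ≤ ‖ξ‖ :=
  (exists_wlim p (fun g => (v g : Op Λ) * rgt (s g)⁻¹) (fun g ξ => by
    rw [mul_ap, norm_v, norm_rgt])).choose_spec.1 ξ

theorem TT_tendsto (v : Γ →* unitary (Op Λ)) (p : Ultrafilter Γ) (s : Γ → Λ) (ζ ξ : L2 Λ) :
    Tendsto (fun g => inner ℂ ζ ((v g : Op Λ) (rgt (s g)⁻¹ ξ))) p (𝓝 (inner ℂ ζ (TT v p s ξ))) :=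
  (exists_wlim p (fun g => (v g : Op Λ) * rgt (s g)⁻¹) (fun g ξ => by
    rw [mul_ap, norm_v, norm_rgt])).choose_spec.2 ζ ξ

theorem TT_unique (v : Γ →* unitary (Op Λ)) (p : Ultrafilter Γ) (s : Γ → Λ) (ξ η : L2 Λ)
    (h : ∀ ζ, Tendsto (fun g => inner ℂ ζ ((v g : Op Λ) (rgt (s g)⁻¹ ξ))) p (𝓝 (inner ℂ ζ η))) :
    TT v p s ξ = η := by
  refine ext_inner_left ℂ fun ζ => ?_
  exact tendsto_nhds_unique (TT_tendsto v p s ζ ξ) (h ζ)

theorem TT_congr (v : Γ →* unitary (Op Λ)) (p : Ultrafilter Γ) {s s' : Γ → Λ}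
    (h : ∀ᶠ g in p, s g = s' g) (ξ : L2 Λ) : TT v p s ξ = TT v p s' ξ := by
  refine TT_unique v p s ξ _ fun ζ => ?_
  refine (TT_tendsto v p s' ζ ξ).congr' ?_
  filter_upwards [h] with g hg
  rw [hg]

theorem TT_rgt (v : Γ →* unitary (Op Λ)) (p : Ultrafilter Γ) (s : Γ → Λ) (a : Λ) (ξ : L2 Λ) :
    TT v p s (rgt a ξ) = TT v p (fun g => s g * a⁻¹) ξ := by
  refine TT_unique v p s _ _ fun ζ => ?_
  refine (TT_tendsto v p (fun g => s g * a⁻¹) ζ ξ).congr fun g => ?_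
  rw [rgt_rgt]
  congr 4
  group

theorem v_rgt (v : Γ →* unitary (Op Λ)) (hv : ∀ g, (v g : Op Λ) ∈ LG Λ) (g : Γ) (a : Λ)
    (ξ : L2 Λ) : (v g : Op Λ) (rgt a ξ) = rgt a ((v g : Op Λ) ξ) :=
  (congrArg (fun z : Op Λ => z ξ) (mem_LG.1 (hv g) a)).symm

theorem inner_rgt' (a : Λ) (x y : L2 Λ) : inner ℂ x (rgt a y) = inner ℂ (rgt a⁻¹ x) y := by
  rw [← inner_rgt a (rgt a⁻¹ x) y, rgt_rgt, inv_mul_cancel, rgt_one']

theorem rgt_TT (v : Γ →* unitary (Op Λ)) (hv : ∀ g, (v g : Op Λ) ∈ LG Λ) (p : Ultrafilter Γ)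
    (s : Γ → Λ) (a : Λ) (ξ : L2 Λ) :
    rgt a (TT v p s ξ) = TT v p (fun g => a⁻¹ * s g) ξ := by
  refine (TT_unique v p _ _ _ fun ζ => ?_).symm
  rw [inner_rgt']
  refine (TT_tendsto v p s (rgt a⁻¹ ζ) ξ).congr fun g => ?_
  rw [← inner_rgt', ← v_rgt v hv, rgt_rgt]
  congr 4
  group

theorem TT_entry (v : Γ →* unitary (Op Λ)) (hv : ∀ g, (v g : Op Λ) ∈ LG Λ) (p : Ultrafilter Γ)
    (s : Γ → Λ) (x y : Λ) :
    Tendsto (fun g => cf (v g : Op Λ) (x * s g * y⁻¹)) p (𝓝 ((TT v p s (dl y)) x)) := by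
  rw [← inner_dl]
  refine (TT_tendsto v p s (dl x) (dl y)).congr fun g => ?_
  rw [rgt_dl, inner_dl, LG_coeff (hv g)]
  congr 1
  group

theorem TT_dl (v : Γ →* unitary (Op Λ)) (p : Ultrafilter Γ) (s : Γ → Λ) (y : Λ) :
    TT v p s (dl y) = TT v p (fun g => s g * y⁻¹) (dl 1) := by
  rw [← TT_rgt, rgt_dl, one_mul]

/-- **The inequality of Bessel.** -/
theorem bessel (v : Γ →* unitary (Op Λ)) (hv : ∀ g, (v g : Op Λ) ∈ LG Λ) (p : Ultrafilter Γ)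
    {ι : Type} (J : Finset ι) (s : ι → Γ → Λ)
    (hs : ∀ i ∈ J, ∀ j ∈ J, i ≠ j → ∀ x, ∀ᶠ g in p, s j g ≠ x * s i g) :
    ∑ j ∈ J, ‖TT v p (s j) (dl 1)‖ ^ 2 ≤ 1 := by
  classical
  have hfin : ∀ F : Finset Λ, ∑ x ∈ F, ∑ j ∈ J, ‖(TT v p (s j) (dl 1)) x‖ ^ 2 ≤ 1 := by
    intro F
    have hlim : Tendsto (fun g => ∑ x ∈ F, ∑ j ∈ J, ‖cf (v g : Op Λ) (x * s j g)‖ ^ 2) p
        (𝓝 (∑ x ∈ F, ∑ j ∈ J, ‖(TT v p (s j) (dl 1)) x‖ ^ 2)) := by
      refine tendsto_finsetSum _ fun x _ => tendsto_finsetSum _ fun j _ => ?_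
      have h1 := TT_entry v hv p (s j) x 1
      refine ((h1.norm).pow 2).congr fun g => ?_
      rw [inv_one, mul_one]
    have hev : ∀ᶠ g in p, ∀ i ∈ J, ∀ j ∈ J, ∀ x ∈ F, ∀ y ∈ F, i ≠ j →
        s j g ≠ (y⁻¹ * x) * s i g := by
      rw [Filter.eventually_all_finset]
      intro i hi
      rw [Filter.eventually_all_finset]
      intro j hj
      rw [Filter.eventually_all_finset]
      intro x _
      rw [Filter.eventually_all_finset]
      intro y _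
      by_cases h : i = j
      · exact Eventually.of_forall fun g h' => absurd h h'
      · filter_upwards [hs i hi j hj h (y⁻¹ * x)] with g hg _
        exact hg
    refine le_of_tendsto hlim ?_
    filter_upwards [hev] with g hg
    rw [← Finset.sum_product' (f := fun x j => ‖cf (v g : Op Λ) (x * s j g)‖ ^ 2)]
    have hinj : Set.InjOn (fun xj : Λ × ι => xj.1 * s xj.2 g) ((F ×ˢ J : Finset (Λ × ι)) : Set (Λ × ι)) := by
      rintro ⟨x, i⟩ hx ⟨y, j⟩ hy e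
      rw [Finset.mem_coe, Finset.mem_product] at hx hy
      change x * s i g = y * s j g at e
      by_cases h : i = j
      · subst h
        rw [mul_right_cancel e]
      · exfalso
        refine hg i hx.2 j hy.2 x hx.1 y hy.1 h ?_
        rw [mul_assoc, e]
        group
    rw [← Finset.sum_image (f := fun k => ‖cf (v g : Op Λ) k‖ ^ 2)
      (g := fun xj : Λ × ι => xj.1 * s xj.2 g) hinj]
    exact sum_le_hasSum _ (fun k _ => sq_nonneg _) (t_sq Λ _ (hv g) (v g).2)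
  have h1 : Tendsto (fun F : Finset Λ => ∑ x ∈ F, ∑ j ∈ J, ‖(TT v p (s j) (dl 1)) x‖ ^ 2) atTop
      (𝓝 (∑ j ∈ J, ‖TT v p (s j) (dl 1)‖ ^ 2)) := by
    have h2 : ∀ F : Finset Λ, ∑ x ∈ F, ∑ j ∈ J, ‖(TT v p (s j) (dl 1)) x‖ ^ 2 =
        ∑ j ∈ J, ∑ x ∈ F, ‖(TT v p (s j) (dl 1)) x‖ ^ 2 := fun F => Finset.sum_comm
    simp only [h2]
    exact tendsto_finsetSum _ fun j _ => hasSum_sq (TT v p (s j) (dl 1))
  exact le_of_tendsto h1 (Eventually.of_forall hfin)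

/-- (G) -/
theorem TT_zero (v : Γ →* unitary (Op Λ)) (hv : ∀ g, (v g : Op Λ) ∈ LG Λ) (p : Ultrafilter Γ)
    (hp : Gen (fun g => (v g : Op Λ)) p) (s : Γ → Λ) (a b : Λ) (ha : a ≠ 1)
    (h : ∀ᶠ g in p, s g * a = b * s g) (ξ : L2 Λ) : TT v p s ξ = 0 := by
  classical
  have h0 : ∀ y, TT v p s (dl y) = 0 := by
    intro y
    apply vec_ext
    intro x
    refine tendsto_nhds_unique (TT_entry v hv p s x y) ?_
    show Tendsto _ _ (𝓝 0)
    rw [Metric.tendsto_nhds]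
    intro ε hε
    have hya : y * a * y⁻¹ ≠ 1 := by
      intro h1
      apply ha
      have : a = y⁻¹ * (y * a * y⁻¹) * y := by group
      rw [this, h1]
      group
    filter_upwards [h, hp (y * a * y⁻¹) (x * b * x⁻¹) hya ε hε] with g hg hg2
    rw [dist_zero_right]
    refine lt_of_le_of_lt ?_ hg2
    have hmem : x * s g * y⁻¹ ∈ DD (y * a * y⁻¹) (x * b * x⁻¹) := by
      rw [mem_DD]
      have : x * s g * y⁻¹ * (y * a * y⁻¹) * (x * s g * y⁻¹)⁻¹ =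
          x * (s g * a) * (s g)⁻¹ * x⁻¹ := by group
      rw [this, hg]
      group
    have h2 : cf (v g : Op Λ) (x * s g * y⁻¹) =
        (MM (DD (y * a * y⁻¹) (x * b * x⁻¹)) ((v g : Op Λ) (dl 1))) (x * s g * y⁻¹) := by
      rw [MM_ap, if_pos hmem, cf_eq]
    rw [h2]
    exact lp.norm_apply_le_norm (by norm_num) _ _
  have h1 : TT v p s = 0 := op_ext fun y => by
    rw [h0]
    rfl
  rw [h1]
  rfl

end

end Pool.Agent.H52.HD
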