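import Pool.Agent.H52.HD.Gap

/-!
# Height dichotomy: the representation on `ℓ²((M × M × X)/M)`
-/

set_option autoImplicit false

namespace Pool.Agent.H52.HD

open Pool.Agent.H494R3.GT Pool.Agent.N557.QW Pool.Agent.N414.LR
open Pool.Agent.N169.QWP (mul_coeff LG_coeff star_ap commute)
open Pool.Agent.N414.LR.TEN (A B A_coeff B_coeff A_one A_mul A_star B_one B_mul B_star)
open Pool.Agent.N414.LR.BAR (bar bar_apply bar_coeff)
open Pool.Agent.N414.LR.RE0 (cj cj_entry cj_one cj_mul cj_star)

noncomputable section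

section bar

variable {P : Type}

theorem bar_entry (x : Op P) (p q : P) : (bar x (dl p)) q = (starRingEnd ℂ) ((x (dl p)) q) := by
  rw [← inner_dl, bar_coeff, inner_dl]

theorem bar_one : bar (1 : Op P) = 1 := by
  ext1 v
  rw [bar_apply]
  change star (star v) = v
  exact star_star v

theorem bar_mul (x y : Op P) : bar (x * y) = bar x * bar y := by
  ext1 v
  rw [bar_apply, mul_ap, mul_ap, bar_apply, bar_apply, star_star]

theorem bar_star (x : Op P) : bar (star x) = star (bar x) := by
  apply op_ext_inner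
  intro a b
  rw [inner_dl, inner_dl, bar_entry, star_ap, star_ap, bar_entry]

end bar

variable {M X : Type} [Group M]

/-- the involution `(z, x) ↦ (z⁻¹, z x)` -/
def ei (act : M →* Equiv.Perm X) : Equiv.Perm (M × X) where
  toFun p := (p.1⁻¹, act p.1 p.2)
  invFun p := (p.1⁻¹, act p.1 p.2)
  left_inv p := by
    change ((p.1⁻¹)⁻¹, act p.1⁻¹ (act p.1 p.2)) = p
    rw [inv_inv, ← Equiv.Perm.mul_apply, ← map_mul, inv_mul_cancel, map_one]
    rfl
  right_inv p := by
    change ((p.1⁻¹)⁻¹, act p.1⁻¹ (act p.1 p.2)) = p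
    rw [inv_inv, ← Equiv.Perm.mul_apply, ← map_mul, inv_mul_cancel, map_one]
    rfl

theorem ei_apply (act : M →* Equiv.Perm X) (z : M) (x : X) : ei act (z, x) = (z⁻¹, act z x) := rfl

/-- the second factor -/
def Y (act : M →* Equiv.Perm X) (u : Op M) : Op (M × X) := cj (ei act) (A X (bar u))

theorem Y_one (act : M →* Equiv.Perm X) : Y act 1 = 1 := by
  rw [Y, bar_one, A_one, cj_one]

theorem Y_mul (act : M →* Equiv.Perm X) (u u' : Op M) : Y act (u * u') = Y act u * Y act u' := by
  rw [Y, bar_mul, A_mul, cj_mul]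
  rfl

theorem Y_star (act : M →* Equiv.Perm X) (u : Op M) : Y act (star u) = star (Y act u) := by
  rw [Y, bar_star, A_star, cj_star]
  rfl

open scoped Classical in
theorem Y_entry (act : M →* Equiv.Perm X) {u : Op M} (hu : u ∈ LG M) (z z' : M) (x x' : X) :
    (Y act u (dl (z, x))) (z', x') =
      if act z x = act z' x' then (starRingEnd ℂ) (cf u (z'⁻¹ * z)) else 0 := by
  rw [Y, cj_entry, ei_apply, ei_apply, A_coeff, bar_entry, LG_coeff hu, inv_inv]

open scoped Classical in
theorem A_entry {u : Op M} (hu : u ∈ LG M) (z z' : M) (x x' : X) :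
    (A X u (dl (z, x))) (z', x') = if x = x' then cf u (z' * z⁻¹) else 0 := by
  rw [A_coeff, LG_coeff hu]

theorem act_eq_iff (act : M →* Equiv.Perm X) (z z'' : M) (x x' : X) :
    act z x = act z'' x' ↔ act (z''⁻¹ * z) x = x' := by
  rw [map_mul, Equiv.Perm.mul_apply, map_inv, Equiv.Perm.inv_eq_iff_eq]

open scoped Classical in
theorem AY_entry (act : M →* Equiv.Perm X) {u u' : Op M} (hu : u ∈ LG M) (hu' : u' ∈ LG M)
    (z z' : M) (x x' : X) :
    (A X u (Y act u' (dl (z, x)))) (z', x') =
      ∑' k : M, if act k x = x' then cf u (z' * k * z⁻¹) * (starRingEnd ℂ) (cf u' k) else 0 := by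
  rw [mul_coeff]
  have hinj : Function.Injective (fun k : M => ((z * k⁻¹, x') : M × X)) := by
    intro k k' e
    have := (Prod.ext_iff.1 e).1
    exact inv_injective (mul_left_cancel this)
  rw [← hinj.tsum_eq]
  · refine tsum_congr fun k => ?_
    rw [A_entry hu, Y_entry act hu', if_pos rfl, act_eq_iff]
    have e1 : (z * k⁻¹)⁻¹ * z = k := by group
    have e2 : z' * (z * k⁻¹)⁻¹ = z' * k * z⁻¹ := by group
    rw [e1, e2, mul_ite, mul_zero]
  · rintro ⟨z'', x''⟩ h
    by_cases e : x'' = x'
    · subst e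
      exact ⟨z''⁻¹ * z, by simp⟩
    · exfalso
      apply h
      beta_reduce
      rw [A_entry hu, if_neg e, zero_mul]

open scoped Classical in
theorem YA_entry (act : M →* Equiv.Perm X) {u u' : Op M} (hu : u ∈ LG M) (hu' : u' ∈ LG M)
    (z z' : M) (x x' : X) :
    (Y act u' (A X u (dl (z, x)))) (z', x') =
      ∑' k : M, if act k x = x' then cf u (z' * k * z⁻¹) * (starRingEnd ℂ) (cf u' k) else 0 := by
  rw [mul_coeff]
  have hinj : Function.Injective (fun k : M => ((z' * k, x) : M × X)) := by
    intro k k' e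
    have := (Prod.ext_iff.1 e).1
    exact mul_left_cancel this
  rw [← hinj.tsum_eq]
  · refine tsum_congr fun k => ?_
    rw [A_entry hu, Y_entry act hu', if_pos rfl, act_eq_iff]
    have e1 : z'⁻¹ * (z' * k) = k := by group
    rw [e1, ite_mul, zero_mul, mul_comm]
  · rintro ⟨z'', x''⟩ h
    by_cases e : x = x''
    · subst e
      exact ⟨z'⁻¹ * z'', by simp⟩
    · exfalso
      apply h
      beta_reduce
      rw [A_entry hu, if_neg e, mul_zero]

theorem comm_AY (act : M →* Equiv.Perm X) {u u' : Op M} (hu : u ∈ LG M) (hu' : u' ∈ LG M) :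
    A X u * Y act u' = Y act u' * A X u := by
  apply op_ext
  rintro ⟨z, x⟩
  apply vec_ext
  rintro ⟨z', x'⟩
  rw [mul_ap, mul_ap, AY_entry act hu hu', YA_entry act hu hu']

section rep

variable {Γ : Type} [Group Γ]

/-- products of commuting representations -/
theorem unitary_mul_hom {H : Type} [NormedAddCommGroup H] [InnerProductSpace ℂ H]
    [CompleteSpace H] (a b : Γ → H →L[ℂ] H) (a1 : a 1 = 1) (b1 : b 1 = 1)
    (am : ∀ g h, a (g * h) = a g * a h) (bm : ∀ g h, b (g * h) = b g * b h)
    (as : ∀ g, star (a g) * a g = 1) (as' : ∀ g, a g * star (a g) = 1)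
    (bs : ∀ g, star (b g) * b g = 1) (bs' : ∀ g, b g * star (b g) = 1)
    (hc : ∀ g h, a g * b h = b h * a g) :
    ∃ κ : Γ →* unitary (H →L[ℂ] H), ∀ g, (κ g : H →L[ℂ] H) = a g * b g := by
  have hu : ∀ g, a g * b g ∈ unitary (H →L[ℂ] H) := by
    intro g
    rw [Unitary.mem_iff, star_mul]
    constructor
    · calc star (b g) * star (a g) * (a g * b g) = star (b g) * (star (a g) * a g) * b g := by
            simp only [mul_assoc]
        _ = 1 := by rw [as, mul_one, bs]
    · calc a g * b g * (star (b g) * star (a g)) = a g * (b g * star (b g)) * star (a g) := by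
            simp only [mul_assoc]
        _ = 1 := by rw [bs', mul_one, as']
  refine ⟨{ toFun := fun g => ⟨a g * b g, hu g⟩, map_one' := ?_, map_mul' := ?_ }, fun _ => rfl⟩
  · apply Subtype.ext
    change a 1 * b 1 = 1
    rw [a1, b1, one_mul]
  · intro g h
    apply Subtype.ext
    change a (g * h) * b (g * h) = a g * b g * (a h * b h)
    rw [am, bm]
    calc a g * a h * (b g * b h) = a g * (a h * b g) * b h := by simp only [mul_assoc]
      _ = a g * (b g * a h) * b h := by rw [hc]
      _ = a g * b g * (a h * b h) := by simp only [mul_assoc]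

/-- **The representation.** -/
theorem exists_rep (act : M →* Equiv.Perm X) (w : Γ →* unitary (Op M))
    (hw : ∀ g, (w g : Op M) ∈ LG M) :
    ∃ κ : Γ →* unitary (Op (M × X)), ∀ g, (κ g : Op (M × X)) = A X (w g : Op M) * Y act (w g) := by
  have w1 : ((w 1 : unitary (Op M)) : Op M) = 1 := by rw [map_one]; rfl
  have wm : ∀ g h, ((w (g * h) : unitary (Op M)) : Op M) = (w g : Op M) * (w h : Op M) := by
    intro g h
    rw [map_mul]
    rfl
  have un1 : ∀ x : unitary (Op M), star (x : Op M) * (x : Op M) = 1 := fun x =>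
    (Unitary.mem_iff.1 x.2).1
  have un2 : ∀ x : unitary (Op M), (x : Op M) * star (x : Op M) = 1 := fun x =>
    (Unitary.mem_iff.1 x.2).2
  refine unitary_mul_hom (fun g => A X (w g : Op M)) (fun g => Y act (w g : Op M)) ?_ ?_ ?_ ?_
    ?_ ?_ ?_ ?_ ?_
  · show A X ((w 1 : unitary (Op M)) : Op M) = 1
    rw [w1, A_one]
  · show Y act ((w 1 : unitary (Op M)) : Op M) = 1
    rw [w1, Y_one]
  · intro g h
    show A X ((w (g * h) : unitary (Op M)) : Op M) = A X (w g : Op M) * A X (w h : Op M)
    rw [wm, A_mul]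
  · intro g h
    show Y act ((w (g * h) : unitary (Op M)) : Op M) = Y act (w g : Op M) * Y act (w h : Op M)
    rw [wm, Y_mul]
  · intro g
    show star (A X (w g : Op M)) * A X (w g : Op M) = 1
    rw [← A_star, ← A_mul, un1, A_one]
  · intro g
    show A X (w g : Op M) * star (A X (w g : Op M)) = 1
    rw [← A_star, ← A_mul, un2, A_one]
  · intro g
    show star (Y act (w g : Op M)) * Y act (w g : Op M) = 1
    rw [← Y_star, ← Y_mul, un1, Y_one]
  · intro g
    show Y act (w g : Op M) * star (Y act (w g : Op M)) = 1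
    rw [← Y_star, ← Y_mul, un2, Y_one]
  · intro g h
    exact comm_AY act (hw g) (hw h)

end rep

end

end Pool.Agent.H52.HD
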